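import Mathlib

set_option autoImplicit false

namespace Pool.Agent.Lib_MP_dea706_ag

open Matrix MvPolynomial

/-- If `M v = 0` then `adj(M)_{ll} v_i = v_l adj(M)_{il}`. -/
theorem adj_mul_of_mulVec_eq_zero {ι S : Type*} [DecidableEq ι] [Fintype ι] [CommRing S]
    (M : Matrix ι ι S) (v : ι → S) (hv : M *ᵥ v = 0) (l i : ι) :
    M.adjugate l l * v i = v l * M.adjugate i l := by
  set M' := M.updateRow l (Pi.single l 1) with hM'
  have h1 : M' *ᵥ v = Pi.single l (v l) := by
    ext j
    by_cases hj : j = l
    · subst hj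
      simp [hM', Matrix.mulVec, dotProduct, Pi.single_apply]
    · have : (M *ᵥ v) j = 0 := by rw [hv]; rfl
      simp only [Matrix.mulVec, dotProduct] at this
      simp [hM', Matrix.mulVec, dotProduct, hj, this]
  have h2 : M'.adjugate *ᵥ (M' *ᵥ v) = M'.det • v := by
    rw [Matrix.mulVec_mulVec, Matrix.adjugate_mul, Matrix.smul_mulVec, Matrix.one_mulVec]
  rw [h1] at h2
  have h3 : M'.det = M.adjugate l l := by
    rw [Matrix.adjugate_apply]
  have h4 : M'.adjugate i l = M.adjugate i l := by
    rw [Matrix.adjugate_apply, Matrix.adjugate_apply, hM', Matrix.updateRow_idem]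
  have h5 := congrFun h2 i
  simp only [Matrix.mulVec_single, Pi.smul_apply, smul_eq_mul] at h5
  rw [h3] at h5
  rw [← h5]
  simp [h4, mul_comm]

theorem adj_mul_adj {ι S : Type*} [DecidableEq ι] [Fintype ι] [CommRing S]
    (M : Matrix ι ι S) (hM : M.det = 0) (l i j : ι) :
    M.adjugate l l * M.adjugate i j = M.adjugate i l * M.adjugate l j := by
  have h := adj_mul_of_mulVec_eq_zero M (fun i => M.adjugate i j) ?_ l i
  · rw [h, mul_comm]
  · ext k
    have : (M * M.adjugate) k j = 0 := by rw [Matrix.mul_adjugate, hM]; simp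
    simpa [Matrix.mul_apply, Matrix.mulVec, dotProduct] using this

/-- If `z = adj(M)_{ll}` is prime, of the maximal possible total degree, and `det M = 0`, then `M` has
a constant kernel vector or a constant left kernel vector. -/
theorem exists_const_kernel {ι σ K : Type*} [DecidableEq ι] [Fintype ι] [Field K]
    (M : Matrix ι ι (MvPolynomial σ K)) (hM : M.det = 0) (l : ι)
    (hz : Prime (M.adjugate l l))
    (hdeg : ∀ i j, (M.adjugate i j).totalDegree ≤ (M.adjugate l l).totalDegree) :
    (∃ v : ι → K, v l = 1 ∧ M *ᵥ (fun i => C (v i)) = 0) ∨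
    (∃ v : ι → K, v l = 1 ∧ (fun i => C (v i)) ᵥ* M = 0) := by
  have hz0 : M.adjugate l l ≠ 0 := hz.ne_zero
  -- helper : quotient is constant
  have hq : ∀ i j, M.adjugate l l ∣ M.adjugate i j → ∃ c : K, M.adjugate i j = M.adjugate l l * C c := by
    intro i j h
    obtain ⟨q, hq⟩ := h
    by_cases hq0 : q = 0
    · exact ⟨0, by rw [hq, hq0]; simp⟩
    · have h1 := MvPolynomial.totalDegree_mul_of_isDomain hz0 hq0
      have h2 := hdeg i j
      rw [hq] at h2
      have h3 : q.totalDegree = 0 := by omega
      exact ⟨coeff 0 q, by rw [hq, ← MvPolynomial.totalDegree_eq_zero_iff_eq_C.mp h3]⟩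
  by_cases h : ∀ i, M.adjugate l l ∣ M.adjugate i l
  · left
    choose v hv using fun i => hq i l (h i)
    refine ⟨v, ?_, ?_⟩
    · have h1 := hv l
      have h2 : M.adjugate l l * (C (v l) - 1) = 0 := by rw [mul_sub, ← h1]; ring
      have h3 := (mul_eq_zero.mp h2).resolve_left hz0
      have h4 : (C (v l) : MvPolynomial σ K) = C 1 := by rw [sub_eq_zero.mp h3]; simp
      exact C_injective _ _ h4
    · ext1 k
      have h1 : (M * M.adjugate) k l = 0 := by rw [Matrix.mul_adjugate, hM]; simp
      rw [Matrix.mul_apply] at h1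
      have h2 : M.adjugate l l * ∑ i, M k i * C (v i) = 0 := by
        rw [Finset.mul_sum, ← h1]
        refine Finset.sum_congr rfl fun i _ => ?_
        rw [hv i]; ring
      have h3 := (mul_eq_zero.mp h2).resolve_left hz0
      simpa [Matrix.mulVec, dotProduct] using h3
  · right
    push Not at h
    obtain ⟨i, hi⟩ := h
    have h' : ∀ j, M.adjugate l l ∣ M.adjugate l j := by
      intro j
      have h1 : M.adjugate l l ∣ M.adjugate i l * M.adjugate l j :=
        ⟨M.adjugate i j, (adj_mul_adj M hM l i j).symm⟩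
      exact (hz.dvd_or_dvd h1).resolve_left hi
    choose v hv using fun j => hq l j (h' j)
    refine ⟨v, ?_, ?_⟩
    · have h1 := hv l
      have h2 : M.adjugate l l * (C (v l) - 1) = 0 := by rw [mul_sub, ← h1]; ring
      have h3 := (mul_eq_zero.mp h2).resolve_left hz0
      have h4 : (C (v l) : MvPolynomial σ K) = C 1 := by rw [sub_eq_zero.mp h3]; simp
      exact C_injective _ _ h4
    · ext1 k
      have h1 : (M.adjugate * M) l k = 0 := by rw [Matrix.adjugate_mul, hM]; simp
      rw [Matrix.mul_apply] at h1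
      have h2 : M.adjugate l l * ∑ i, C (v i) * M i k = 0 := by
        rw [Finset.mul_sum, ← h1]
        refine Finset.sum_congr rfl fun i _ => ?_
        rw [hv i]; ring
      have h3 := (mul_eq_zero.mp h2).resolve_left hz0
      simpa [Matrix.vecMul, dotProduct] using h3

end Pool.Agent.Lib_MP_dea706_ag
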