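import Mathlib

set_option autoImplicit false

namespace Pool.Agent.Lib_MP_dea706_ag

open MvPolynomial

section

variable {σ ι k : Type*} [Field k] [Fintype ι]

/-- standard exponents -/
def Std (d : ι → σ →₀ ℕ) (b : σ →₀ ℕ) : Prop := ∀ i, ¬ d i ≤ b

/-- every exponent is `b + ∑ α_i d_i` with `b` standard. -/
theorem exists_decomp (d : ι → σ →₀ ℕ) (hne : ∀ i, d i ≠ 0) (δ : σ →₀ ℕ) :
    ∃ (b : σ →₀ ℕ) (α : ι → ℕ), Std d b ∧ δ = b + ∑ i, α i • d i := by
  classical
  induction hn : δ.degree using Nat.strong_induction_on generalizing δ with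
  | _ n ih =>
    by_cases h : Std d δ
    · exact ⟨δ, 0, h, by simp⟩
    · unfold Std at h
      push Not at h
      obtain ⟨i, hi⟩ := h
      have hlt : (δ - d i).degree < n := by
        have h1 : δ.degree = (δ - d i).degree + (d i).degree := by
          rw [← map_add, tsub_add_cancel_of_le hi]
        have h2 : (d i).degree ≠ 0 := by
          rw [Ne, Finsupp.degree_eq_zero_iff]; exact hne i
        omega
      obtain ⟨b, α, hb, hbα⟩ := ih _ hlt (δ - d i) rfl
      refine ⟨b, α + Pi.single i 1, hb, ?_⟩
      have h3 : δ = (δ - d i) + d i := (tsub_add_cancel_of_le hi).symm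
      rw [h3, hbα]
      simp only [Pi.add_apply, add_smul, Finset.sum_add_distrib]
      rw [add_assoc]
      congr 2
      rw [Finset.sum_eq_single i]
      · simp
      · intro j _ hj; simp [Pi.single_eq_of_ne hj]
      · intro h; exact absurd (Finset.mem_univ _) h

theorem decomp_inj (d : ι → σ →₀ ℕ) (hsq : ∀ i s, d i s ≤ 1)
    (hdisj : ∀ i j, i ≠ j → Disjoint (d i).support (d j).support)
    (b b' : σ →₀ ℕ) (α α' : ι → ℕ) (hb : Std d b) (hb' : Std d b')
    (h : b + ∑ i, α i • d i = b' + ∑ i, α' i • d i) : b = b' ∧ α = α' := by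
  classical
  have key : ∀ (b b' : σ →₀ ℕ) (α α' : ι → ℕ), Std d b →
      b + ∑ i, α i • d i = b' + ∑ i, α' i • d i → ∀ i, α' i ≤ α i := by
    intro b b' α α' hb h i
    have h1 := hb i
    rw [Finsupp.le_def] at h1
    push Not at h1
    obtain ⟨s, hs⟩ := h1
    have hds : d i s = 1 := by have := hsq i s; omega
    have hbs : b s = 0 := by omega
    have hother : ∀ j, j ≠ i → d j s = 0 := by
      intro j hj
      have h2 := Finset.disjoint_left.mp (hdisj i j (Ne.symm hj))
        (show s ∈ (d i).support by rw [Finsupp.mem_support_iff, hds]; exact one_ne_zero)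
      simpa using h2
    have hsum : ∀ α : ι → ℕ, (∑ i, α i • d i) s = α i := by
      intro α
      rw [Finsupp.finsetSum_apply, Finset.sum_eq_single i]
      · simp [hds]
      · intro j _ hj; simp [hother j hj]
      · intro h; exact absurd (Finset.mem_univ _) h
    have h3 := DFunLike.congr_fun h s
    rw [Finsupp.add_apply, Finsupp.add_apply, hsum, hsum, hbs] at h3
    omega
  have hα : α = α' := by
    funext i
    exact le_antisymm (key b' b α' α hb' h.symm i) (key b b' α α' hb h i)
  subst hα
  exact ⟨add_right_cancel h, rfl⟩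

variable (m : MonomialOrder σ) (f : ι → MvPolynomial σ k)

noncomputable def basisElt (p : (σ →₀ ℕ) × (ι → ℕ)) : MvPolynomial σ k :=
  monomial p.1 1 * ∏ i, f i ^ p.2 i

theorem basisElt_ne_zero (hf : ∀ i, f i ≠ 0) (p : (σ →₀ ℕ) × (ι → ℕ)) : basisElt f p ≠ 0 := by
  unfold basisElt
  refine mul_ne_zero (by simp) (Finset.prod_ne_zero_iff.mpr fun i _ => pow_ne_zero _ (hf i))

theorem degree_basisElt (hf : ∀ i, f i ≠ 0) (p : (σ →₀ ℕ) × (ι → ℕ)) :
    m.degree (basisElt f p) = p.1 + ∑ i, p.2 i • m.degree (f i) := by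
  classical
  unfold basisElt
  rw [m.degree_mul (by simp) (Finset.prod_ne_zero_iff.mpr fun i _ => pow_ne_zero _ (hf i)),
    m.degree_monomial, if_neg one_ne_zero, m.degree_prod (fun i _ => pow_ne_zero _ (hf i))]
  simp [MonomialOrder.degree_pow]

theorem span_basisElt (hf : ∀ i, m.degree (f i) ≠ 0) (g : MvPolynomial σ k) :
    g ∈ Submodule.span k (basisElt f '' {p | Std (fun i => m.degree (f i)) p.1}) := by
  classical
  have hf0 : ∀ i, f i ≠ 0 := fun i => m.ne_zero_of_degree_ne_zero (hf i)
  induction hn : m.toSyn (m.degree g) using WellFoundedLT.induction generalizing g with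
  | _ n ih =>
    by_cases hg : g = 0
    · rw [hg]; exact Submodule.zero_mem _
    obtain ⟨b, α, hb, hbα⟩ := exists_decomp (fun i => m.degree (f i)) hf (m.degree g)
    set F := basisElt f (b, α) with hF
    have hFdeg : m.degree F = m.degree g := by rw [hF, degree_basisElt m f hf0, hbα]
    have hF0 : F ≠ 0 := basisElt_ne_zero f hf0 _
    have hFl : m.leadingCoeff F ≠ 0 := m.leadingCoeff_ne_zero_iff.mpr hF0
    set c := m.leadingCoeff g / m.leadingCoeff F with hc
    have hFmem : c • F ∈ Submodule.span k (basisElt f '' {p | Std (fun i => m.degree (f i)) p.1}) :=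
      Submodule.smul_mem _ _ (Submodule.subset_span ⟨(b, α), hb, rfl⟩)
    have hcoef : coeff (m.degree g) (g - c • F) = 0 := by
      rw [coeff_sub, coeff_smul]
      nth_rewrite 2 [← hFdeg]
      change m.leadingCoeff g - c • m.leadingCoeff F = 0
      rw [hc, smul_eq_mul, div_mul_cancel₀ _ hFl, sub_self]
    by_cases h0 : g - c • F = 0
    · rw [sub_eq_zero.mp h0]; exact hFmem
    · have hlt : m.toSyn (m.degree (g - c • F)) < n := by
        rw [← hn]
        apply lt_of_le_of_ne
        · refine m.degree_sub_le.trans (max_le le_rfl ?_)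
          refine m.degree_smul_le.trans ?_
          rw [hFdeg]
        · intro heq
          have := m.toSyn.injective heq
          rw [← this] at hcoef
          exact (m.coeff_degree_ne_zero_iff.mpr h0) hcoef
      have h1 := ih _ hlt (g - c • F) rfl
      have : g = (g - c • F) + c • F := by ring
      rw [this]
      exact Submodule.add_mem _ h1 hFmem

/-- elements of the ideal generated by the `f i` are combinations of `basisElt (b, α)`, `α ≠ 0`. -/
theorem ideal_le_span (hf : ∀ i, m.degree (f i) ≠ 0) (g : MvPolynomial σ k)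
    (hg : g ∈ Ideal.span (Set.range f)) :
    g ∈ Submodule.span k (basisElt f '' {p | Std (fun i => m.degree (f i)) p.1 ∧ p.2 ≠ 0}) := by
  classical
  set V := Submodule.span k (basisElt f '' {p | Std (fun i => m.degree (f i)) p.1 ∧ p.2 ≠ 0}) with hV
  -- V is closed under multiplication
  have hmul1 : ∀ (β : ι → ℕ), β ≠ 0 → ∀ a : MvPolynomial σ k, a * ∏ i, f i ^ β i ∈ V := by
    intro β hβ a
    have ha := span_basisElt m f hf a
    induction ha using Submodule.span_induction with
    | mem x hx =>
      obtain ⟨⟨b, α⟩, hb, rfl⟩ := hx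
      have : basisElt f (b, α) * ∏ i, f i ^ β i = basisElt f (b, α + β) := by
        unfold basisElt
        rw [mul_assoc, ← Finset.prod_mul_distrib]
        simp [pow_add]
      rw [this]
      refine Submodule.subset_span ⟨(b, α + β), ⟨hb, ?_⟩, rfl⟩
      intro h0
      apply hβ
      funext i
      have := congrFun h0 i
      simp only [Pi.add_apply, Pi.zero_apply] at this ⊢
      omega
    | zero => rw [zero_mul]; exact Submodule.zero_mem _
    | add x y _ _ hx hy => rw [add_mul]; exact Submodule.add_mem _ hx hy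
    | smul c x _ hx => rw [smul_mul_assoc]; exact Submodule.smul_mem _ _ hx
  have hmul : ∀ (a x : MvPolynomial σ k), x ∈ V → a * x ∈ V := by
    intro a x hx
    induction hx using Submodule.span_induction with
    | mem x hx =>
      obtain ⟨⟨b, α⟩, ⟨hb, hα⟩, rfl⟩ := hx
      unfold basisElt
      rw [← mul_assoc]
      exact hmul1 α hα _
    | zero => rw [mul_zero]; exact Submodule.zero_mem _
    | add x y _ _ hx hy => rw [mul_add]; exact Submodule.add_mem _ hx hy
    | smul c x _ hx => rw [mul_smul_comm]; exact Submodule.smul_mem _ _ hx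
  induction hg using Submodule.span_induction with
  | mem x hx =>
    obtain ⟨i, rfl⟩ := hx
    have h1 := hmul1 (Pi.single i 1) (by intro h; have := congrFun h i; simp at this) 1
    rw [one_mul, Finset.prod_eq_single i] at h1
    · simpa using h1
    · intro j _ hj; simp [Pi.single_eq_of_ne hj]
    · intro h; exact absurd (Finset.mem_univ _) h
  | zero => exact Submodule.zero_mem _
  | add x y _ _ hx hy => exact Submodule.add_mem _ hx hy
  | smul c x _ hx => exact hmul c x hx

/-- Buchberger's coprime criterion for squarefree leading monomials. -/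
theorem exists_degree_le (hf : ∀ i, m.degree (f i) ≠ 0) (hsq : ∀ i s, m.degree (f i) s ≤ 1)
    (hdisj : ∀ i j, i ≠ j → Disjoint (m.degree (f i)).support (m.degree (f j)).support)
    (g : MvPolynomial σ k) (hg : g ∈ Ideal.span (Set.range f)) (hg0 : g ≠ 0) :
    ∃ i, m.degree (f i) ≤ m.degree g := by
  classical
  have hf0 : ∀ i, f i ≠ 0 := fun i => m.ne_zero_of_degree_ne_zero (hf i)
  have h1 := ideal_le_span m f hf g hg
  rw [Finsupp.mem_span_image_iff_linearCombination] at h1
  obtain ⟨c, hcS, hc⟩ := h1
  have hc0 : c ≠ 0 := by rintro rfl; simp at hc; exact hg0 hc.symm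
  have hne : c.support.Nonempty := Finsupp.support_nonempty_iff.mpr hc0
  obtain ⟨p0, hp0, hmax⟩ := Finset.exists_max_image c.support
    (fun p => m.toSyn (m.degree (basisElt f p))) hne
  have hmem : ∀ p ∈ c.support, Std (fun i => m.degree (f i)) p.1 ∧ p.2 ≠ 0 := fun p hp => hcS hp
  have hcoef : coeff (m.degree (basisElt f p0)) g = c p0 * m.leadingCoeff (basisElt f p0) := by
    rw [← hc, Finsupp.linearCombination_apply, Finsupp.sum, MvPolynomial.coeff_sum,
      Finset.sum_eq_single p0]
    · simp [MonomialOrder.leadingCoeff]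
    · intro p hp hpp
      rw [coeff_smul]
      have hlt : m.toSyn (m.degree (basisElt f p)) < m.toSyn (m.degree (basisElt f p0)) := by
        apply lt_of_le_of_ne (hmax p hp)
        intro heq
        have heq' := m.toSyn.injective heq
        rw [degree_basisElt m f hf0, degree_basisElt m f hf0] at heq'
        have := decomp_inj (fun i => m.degree (f i)) hsq hdisj _ _ _ _ (hmem p hp).1 (hmem p0 hp0).1 heq'
        exact hpp (Prod.ext this.1 this.2)
      rw [m.coeff_eq_zero_of_lt hlt, smul_zero]
    · intro h; exact absurd hp0 h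
  have hcoef0 : coeff (m.degree (basisElt f p0)) g ≠ 0 := by
    rw [hcoef]
    exact mul_ne_zero (Finsupp.mem_support_iff.mp hp0)
      (m.leadingCoeff_ne_zero_iff.mpr (basisElt_ne_zero f hf0 _))
  have hle : m.toSyn (m.degree g) ≤ m.toSyn (m.degree (basisElt f p0)) := by
    rw [m.degree_le_iff]
    intro b hb
    rw [← hc, Finsupp.linearCombination_apply, Finsupp.sum, MvPolynomial.mem_support_iff,
      MvPolynomial.coeff_sum] at hb
    obtain ⟨p, hp, hpb⟩ := Finset.exists_ne_zero_of_sum_ne_zero hb
    rw [coeff_smul] at hpb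
    have h2 : b ∈ (basisElt f p).support := by
      rw [MvPolynomial.mem_support_iff]; intro h; rw [h, smul_zero] at hpb; exact hpb rfl
    exact (m.le_degree h2).trans (hmax p hp)
  have hge : m.toSyn (m.degree (basisElt f p0)) ≤ m.toSyn (m.degree g) :=
    m.le_degree (MvPolynomial.mem_support_iff.mpr hcoef0)
  have heq : m.degree g = m.degree (basisElt f p0) := m.toSyn.injective (le_antisymm hle hge)
  obtain ⟨_, hα⟩ := hmem p0 hp0
  obtain ⟨i, hi⟩ := Function.ne_iff.mp hα
  refine ⟨i, ?_⟩
  rw [heq, degree_basisElt m f hf0]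
  intro s
  rw [Finsupp.add_apply, Finsupp.finsetSum_apply]
  have h3 : m.degree (f i) s ≤ (p0.2 i • m.degree (f i)) s := by
    rw [Finsupp.smul_apply, smul_eq_mul]
    exact Nat.le_mul_of_pos_left _ (Nat.pos_of_ne_zero hi)
  have h4 : (p0.2 i • m.degree (f i)) s ≤ ∑ j, (p0.2 j • m.degree (f j)) s :=
    Finset.single_le_sum (f := fun j => (p0.2 j • m.degree (f j)) s) (fun _ _ => Nat.zero_le _)
      (Finset.mem_univ i)
  omega

/-- An ideal generated by polynomials with pairwise coprime, squarefree leading monomials is radical. -/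
theorem isRadical_of_coprime_squarefree (hf : ∀ i, m.degree (f i) ≠ 0)
    (hsq : ∀ i s, m.degree (f i) s ≤ 1)
    (hdisj : ∀ i j, i ≠ j → Disjoint (m.degree (f i)).support (m.degree (f j)).support) :
    (Ideal.span (Set.range f)).IsRadical := by
  classical
  have hf0 : ∀ i, f i ≠ 0 := fun i => m.ne_zero_of_degree_ne_zero (hf i)
  have hlc : ∀ i, IsUnit (m.leadingCoeff (f i)) := fun i => by
    rw [MonomialOrder.isUnit_leadingCoeff]; exact hf0 i
  intro g hg
  rw [Ideal.mem_radical_iff] at hg
  obtain ⟨n, hn⟩ := hg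
  obtain ⟨h, r, hgr, _, hr⟩ := MonomialOrder.div hlc g
  have hj : Finsupp.linearCombination (MvPolynomial σ k) f h ∈ Ideal.span (Set.range f) := by
    rw [Finsupp.mem_ideal_span_range_iff_exists_finsupp]
    exact ⟨h, by rw [Finsupp.linearCombination_apply]; rfl⟩
  have hrn : r ^ n ∈ Ideal.span (Set.range f) := by
    have h1 : r = g - Finsupp.linearCombination (MvPolynomial σ k) f h := by rw [hgr]; ring
    rw [← Ideal.Quotient.eq_zero_iff_mem] at hn hj ⊢
    rw [map_pow, h1, map_sub, hj, sub_zero, ← map_pow, hn]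
  by_cases hr0 : r = 0
  · rw [hgr, hr0, add_zero]; exact hj
  · exfalso
    obtain ⟨i, hi⟩ := exists_degree_le m f hf hsq hdisj _ hrn (pow_ne_zero _ hr0)
    rw [MonomialOrder.degree_pow] at hi
    apply hr (m.degree r) (m.degree_mem_support hr0) i
    intro s
    have h1 := hi s
    rw [Finsupp.smul_apply, smul_eq_mul] at h1
    have h2 := hsq i s
    rcases Nat.eq_zero_or_pos (m.degree r s) with h3 | h3
    · rw [h3, mul_zero] at h1; omega
    · omega

end

end Pool.Agent.Lib_MP_dea706_ag
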