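import Mathlib

set_option autoImplicit false

namespace Pool.Agent.Lib_MP_dea706_ag

open MvPolynomial

/-- The coordinate ring of the space of `m`-tuples of complex `n × n` matrices: the polynomial ring in
the variables `(k, i, j)`, the `(i, j)` entry of the `k`-th matrix. -/
abbrev CoordRing (n m : ℕ) : Type := MvPolynomial (Fin m × Fin n × Fin n) ℂ

/-- The `k`-th generic matrix `X_k`. -/
noncomputable def genericMatrix (n m : ℕ) (k : Fin m) : Matrix (Fin n) (Fin n) (CoordRing n m) :=
  Matrix.of fun i j => X (k, i, j)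

/-- The determinantal polynomial `f_c = det (c_1 X_1 + ... + c_m X_m)`. -/
noncomputable def detPoly (n m : ℕ) (c : Fin m → ℂ) : CoordRing n m :=
  (∑ k, c k • genericMatrix n m k).det

/-- `SING_{n,m}`: the tuples (given by all their entries) whose span contains no invertible matrix. -/
def singSet (n m : ℕ) : Set (Fin m × Fin n × Fin n → ℂ) :=
  {x | ∀ c : Fin m → ℂ, (∑ k, c k • (Matrix.of fun i j => x (k, i, j) : Matrix (Fin n) (Fin n) ℂ)).det = 0}

/-- The ideal `J` generated by all the determinantal polynomials. -/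
noncomputable def detIdeal (n m : ℕ) : Ideal (CoordRing n m) :=
  Ideal.span (Set.range (detPoly n m))

/-- evaluation of `detPoly` under a ring hom -/
theorem map_detPoly {n m : ℕ} {S : Type*} [CommRing S] (ψ : CoordRing n m →+* S) (c : Fin m → ℂ) :
    ψ (detPoly n m c) =
      (Matrix.of fun i j => ∑ k, ψ (C (c k)) * ψ (X (k, i, j)) : Matrix (Fin n) (Fin n) S).det := by
  unfold detPoly
  rw [RingHom.map_det]
  congr 1
  ext i j
  simp [genericMatrix, Matrix.sum_apply, MvPolynomial.smul_eq_C_mul]

theorem mem_singSet {n m : ℕ} (x : Fin m × Fin n × Fin n → ℂ) :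
    x ∈ singSet n m ↔ ∀ c : Fin m → ℂ, eval x (detPoly n m c) = 0 := by
  unfold singSet
  simp only [Set.mem_ofPred_eq]
  refine forall_congr' fun c => ?_
  rw [map_detPoly (eval x)]
  have : (∑ k, c k • (Matrix.of fun i j => x (k, i, j) : Matrix (Fin n) (Fin n) ℂ)) =
    (Matrix.of fun i j => ∑ k, (eval x) (C (c k)) * (eval x) (X (k, i, j)) : Matrix (Fin n) (Fin n) ℂ) := by
    ext i j
    simp [Matrix.sum_apply]
  rw [this]

end Pool.Agent.Lib_MP_dea706_ag
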