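import Mathlib

set_option autoImplicit false

namespace Pool.Agent.Lib_MP_dea706_ag

open MvPolynomial

theorem totalDegree_map_le' {σ A B : Type*} [CommSemiring A] [CommSemiring B] (f : A →+* B)
    (p : MvPolynomial σ A) : (map f p).totalDegree ≤ p.totalDegree :=
  Finset.sup_mono (MvPolynomial.support_map_subset f p)

theorem totalDegree_map_inj {σ A B : Type*} [CommSemiring A] [CommSemiring B] (f : A →+* B)
    (hf : Function.Injective f)
    (p : MvPolynomial σ A) : (map f p).totalDegree = p.totalDegree := by
  unfold MvPolynomial.totalDegree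
  rw [MvPolynomial.support_map_of_injective p hf]

theorem exists_normalized {σ K : Type*} [Field K] (O : ValuationSubring K) (f : MvPolynomial σ K)
    (hf : f ≠ 0) :
    ∃ (a : K) (F : MvPolynomial σ O), a ≠ 0 ∧ C a * f = map O.subtype F ∧
      map (IsLocalRing.residue O) F ≠ 0 := by
  classical
  have hne : f.support.Nonempty := by
    rwa [Finset.nonempty_iff_ne_empty, Ne, MvPolynomial.support_eq_empty]
  obtain ⟨μ, hμ, hmax⟩ := Finset.exists_max_image f.support (fun m => O.valuation (coeff m f)) hne
  have hμ0 : coeff μ f ≠ 0 := by rwa [MvPolynomial.mem_support_iff] at hμ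
  have hcoef : ∀ ν, (coeff μ f)⁻¹ * coeff ν f ∈ O := by
    intro ν
    rw [← O.valuation_le_one_iff, map_mul, map_inv₀]
    by_cases hν : ν ∈ f.support
    · have := hmax ν hν
      have h0 : O.valuation (coeff μ f) ≠ 0 := by simpa using hμ0
      rw [inv_mul_le_iff₀ (zero_lt_iff.mpr h0)]
      simpa using this
    · rw [MvPolynomial.notMem_support_iff.mp hν]; simp
  have hrange : C (coeff μ f)⁻¹ * f ∈ Set.range (map O.subtype) := by
    rw [MvPolynomial.mem_range_map_iff_coeffs_subset]
    intro c hc
    rw [Finset.mem_coe, MvPolynomial.mem_coeffs_iff] at hc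
    obtain ⟨ν, _, rfl⟩ := hc
    rw [coeff_C_mul]
    exact ⟨⟨_, hcoef ν⟩, rfl⟩
  obtain ⟨F, hF⟩ := hrange
  refine ⟨(coeff μ f)⁻¹, F, inv_ne_zero hμ0, hF.symm, ?_⟩
  intro h0
  have h1 : coeff μ (map O.subtype F) = 1 := by
    rw [hF, coeff_C_mul, inv_mul_cancel₀ hμ0]
  rw [coeff_map] at h1
  have h2 : coeff μ F = 1 := O.subtype_injective (by rw [h1, map_one])
  have h3 : coeff μ (map (IsLocalRing.residue O) F) = 1 := by rw [coeff_map, h2, map_one]
  rw [h0] at h3
  simp at h3

theorem exists_unit_coeff {σ K : Type*} [Field K] (O : ValuationSubring K) (F : MvPolynomial σ O)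
    (hF : map (IsLocalRing.residue O) F ≠ 0) : ∃ ν, O.valuation ((coeff ν F : O) : K) = 1 := by
  by_contra hcon
  push Not at hcon
  apply hF
  ext ν
  rw [coeff_map, coeff_zero, IsLocalRing.residue_eq_zero_iff, ValuationSubring.valuation_lt_one_iff]
  exact lt_of_le_of_ne (O.valuation_le_one _) (hcon ν)

/-- Irreducibility can be checked on the residue field. -/
theorem irreducible_of_residue {σ K : Type*} [Field K] (O : ValuationSubring K)
    (z : MvPolynomial σ O)
    (hirr : Irreducible (map (IsLocalRing.residue O) z))
    (hdeg : z.totalDegree ≤ (map (IsLocalRing.residue O) z).totalDegree) :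
    Irreducible (map O.subtype z) := by
  have hzr : map (IsLocalRing.residue O) z ≠ 0 := hirr.ne_zero
  have hzdeg : (map O.subtype z).totalDegree = z.totalDegree :=
    totalDegree_map_inj _ O.subtype_injective z
  have hpos : 0 < (map (IsLocalRing.residue O) z).totalDegree := by
    by_contra h0
    have h1 : (map (IsLocalRing.residue O) z).totalDegree = 0 := by omega
    have h2 := MvPolynomial.totalDegree_eq_zero_iff_eq_C.mp h1
    apply hirr.not_isUnit
    rw [h2]
    have h3 : coeff 0 (map (IsLocalRing.residue O) z) ≠ 0 := by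
      intro h3
      rw [h3] at h2
      exact hzr (by rw [h2]; simp)
    exact (IsUnit.mk0 _ h3).map C
  have hz0 : map O.subtype z ≠ 0 := by
    intro h0
    have : z = 0 := MvPolynomial.map_injective _ O.subtype_injective (by rw [h0, map_zero])
    rw [this] at hzr
    exact hzr (map_zero _)
  refine ⟨?_, ?_⟩
  · intro hu
    have h1 := (MvPolynomial.isUnit_iff_totalDegree_of_isReduced.mp hu).2
    have h2 := totalDegree_map_le' (IsLocalRing.residue O) z
    omega
  · intro f g hfg
    have hf0 : f ≠ 0 := by rintro rfl; rw [zero_mul] at hfg; exact hz0 hfg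
    have hg0 : g ≠ 0 := by rintro rfl; rw [mul_zero] at hfg; exact hz0 hfg
    obtain ⟨a, F, ha, hF, hFr⟩ := exists_normalized O f hf0
    obtain ⟨b, G, hb, hG, hGr⟩ := exists_normalized O g hg0
    have hFG : map O.subtype (F * G) = C (a * b) * map O.subtype z := by
      rw [map_mul, ← hF, ← hG, hfg, C_mul]; ring
    have hFGr : map (IsLocalRing.residue O) (F * G) ≠ 0 := by
      rw [map_mul]; exact mul_ne_zero hFr hGr
    have hcoef : ∀ ν, ((coeff ν (F * G) : O) : K) = (a * b) * ((coeff ν z : O) : K) := by
      intro ν
      have := congrArg (coeff ν) hFG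
      rw [coeff_map, coeff_C_mul, coeff_map] at this
      exact this
    have hval : O.valuation (a * b) = 1 := by
      apply le_antisymm
      · obtain ⟨ν, hν⟩ := exists_unit_coeff O z hzr
        have h1 := congrArg O.valuation (hcoef ν)
        rw [map_mul, hν, mul_one] at h1
        rw [← h1]
        exact O.valuation_le_one _
      · obtain ⟨ν, hν⟩ := exists_unit_coeff O (F * G) hFGr
        have h1 := congrArg O.valuation (hcoef ν)
        rw [map_mul, hν] at h1
        rw [h1]
        exact mul_le_of_le_one_right' (O.valuation_le_one _)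
    have hab : a * b ∈ O := by rw [← O.valuation_le_one_iff, hval]
    set E : O := ⟨a * b, hab⟩ with hE
    have hEu : IsUnit E := by
      rw [ValuationSubring.valuation_eq_one_iff]; exact hval
    have hFGz : F * G = C E * z := by
      apply MvPolynomial.map_injective _ O.subtype_injective
      rw [hFG, map_mul (map O.subtype) (C E) z, map_C]
      rfl
    have hres : map (IsLocalRing.residue O) F * map (IsLocalRing.residue O) G =
        C (IsLocalRing.residue O E) * map (IsLocalRing.residue O) z := by
      rw [← map_mul, hFGz, map_mul, map_C]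
    have hirr' : Irreducible (map (IsLocalRing.residue O) F * map (IsLocalRing.residue O) G) := by
      rw [hres]
      have hu : IsUnit (C (IsLocalRing.residue O E) : MvPolynomial σ (IsLocalRing.ResidueField O)) :=
        (hEu.map (IsLocalRing.residue O)).map C
      exact (irreducible_isUnit_mul hu).mpr hirr
    have hdres : (map (IsLocalRing.residue O) F).totalDegree + (map (IsLocalRing.residue O) G).totalDegree
        = (map (IsLocalRing.residue O) z).totalDegree := by
      rw [← MvPolynomial.totalDegree_mul_of_isDomain hFr hGr, hres,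
        MvPolynomial.totalDegree_mul_of_isDomain _ hzr, MvPolynomial.totalDegree_C, zero_add]
      intro h0
      rw [h0, zero_mul] at hres
      exact (mul_ne_zero hFr hGr) hres
    have hdfg : f.totalDegree + g.totalDegree = z.totalDegree := by
      rw [← MvPolynomial.totalDegree_mul_of_isDomain hf0 hg0, ← hfg, hzdeg]
    have hFf : F.totalDegree = f.totalDegree := by
      rw [← totalDegree_map_inj _ O.subtype_injective F, ← hF,
        MvPolynomial.totalDegree_mul_of_isDomain (by simpa using ha) hf0, MvPolynomial.totalDegree_C, zero_add]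
    have hGg : G.totalDegree = g.totalDegree := by
      rw [← totalDegree_map_inj _ O.subtype_injective G, ← hG,
        MvPolynomial.totalDegree_mul_of_isDomain (by simpa using hb) hg0, MvPolynomial.totalDegree_C, zero_add]
    have hF1 := totalDegree_map_le' (IsLocalRing.residue O) F
    have hG1 := totalDegree_map_le' (IsLocalRing.residue O) G
    have unit_of_deg : ∀ p : MvPolynomial σ K, p ≠ 0 → p.totalDegree = 0 → IsUnit p := by
      intro p hp0 hp
      have h2 := MvPolynomial.totalDegree_eq_zero_iff_eq_C.mp hp
      rw [h2]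
      have h3 : coeff 0 p ≠ 0 := by
        intro h3
        rw [h3] at h2
        exact hp0 (by rw [h2]; simp)
      exact (IsUnit.mk0 _ h3).map C
    rcases hirr'.isUnit_or_isUnit rfl with h | h
    · left
      have h1 := (MvPolynomial.isUnit_iff_totalDegree_of_isReduced.mp h).2
      apply unit_of_deg f hf0
      omega
    · right
      have h1 := (MvPolynomial.isUnit_iff_totalDegree_of_isReduced.mp h).2
      apply unit_of_deg g hg0
      omega

/-- Domination. -/
theorem exists_dominating {D K : Type*} [CommRing D] [Field K] (ψ : D →+* K) (m : Ideal D)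
    (hm : m ≠ ⊤) (hker : RingHom.ker ψ ≤ m) :
    ∃ O : ValuationSubring K, (∀ d, ψ d ∈ O) ∧ (∀ d ∈ m, ψ d ∈ O.nonunits) := by
  have hI : m.map ψ.rangeRestrict ≠ ⊤ := by
    intro h
    have h1 : (1 : ψ.range) ∈ m.map ψ.rangeRestrict := by rw [h]; trivial
    rw [Ideal.mem_map_iff_of_surjective _ ψ.rangeRestrict_surjective] at h1
    obtain ⟨d, hd, hd1⟩ := h1
    have h2 : d - 1 ∈ RingHom.ker ψ := by
      rw [RingHom.mem_ker, map_sub, map_one, sub_eq_zero]
      have := congrArg Subtype.val hd1
      simpa using this
    have h3 := hker h2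
    apply hm
    rw [Ideal.eq_top_iff_one]
    have : (1 : D) = d - (d - 1) := by ring
    rw [this]
    exact m.sub_mem hd h3
  obtain ⟨B, hB1, hB2⟩ := Ideal.image_subset_nonunits_valuationSubring (m.map ψ.rangeRestrict) hI
  refine ⟨B, fun d => hB1 ⟨d, rfl⟩, fun d hd => hB2 ⟨ψ.rangeRestrict d, Ideal.mem_map_of_mem _ hd, rfl⟩⟩

end Pool.Agent.Lib_MP_dea706_ag
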