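import Mathlib
import Pool.Agent.Lib_MP_dea706_ag.Defs
import Pool.Agent.Lib_MP_dea706_ag.AdjLemmas
import Pool.Agent.Lib_MP_dea706_ag.ValIrred

set_option autoImplicit false

namespace Pool.Agent.Lib_MP_dea706_ag

open MvPolynomial Matrix

/-- `det (s I - L - u E) = s^{N+1} - u`. -/
theorem det_special {S : Type*} [CommRing S] (N : ℕ) (s u : S) :
    (Matrix.of fun i j : Fin (N + 1) => (if i = j then s else 0) - (if i.val = j.val + 1 then 1 else 0)
      - (if i = 0 ∧ j = Fin.last N then u else 0) : Matrix _ _ S).det = s ^ (N + 1) - u := by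
  classical
  set Z : Matrix (Fin (N + 1)) (Fin (N + 1)) S := Matrix.of fun i j : Fin (N + 1) =>
      (if i = j then s else 0) - (if i.val = j.val + 1 then 1 else 0)
      - (if i = 0 ∧ j = Fin.last N then u else 0) with hZ
  have h1 : (Z.submatrix Fin.succ (Fin.succAbove 0)).det = s ^ N := by
    have : (Z.submatrix Fin.succ (Fin.succAbove 0)).det =
        ∏ i, (Z.submatrix Fin.succ (Fin.succAbove 0)) i i := by
      apply Matrix.det_of_isLowerTriangular
      intro i j hij
      have hij' : i < j := hij
      have h1 : i.succ ≠ j.succ := by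
        intro h; rw [Fin.succ_inj] at h; exact absurd h (ne_of_lt hij')
      have h2 : ¬ ((i.succ).val = (j.succ).val + 1) := by
        simp only [Fin.val_succ]
        have : i.val < j.val := hij'
        omega
      simp [hZ, (ne_of_lt hij')]
      have : i.val < j.val := hij'
      omega
    rw [this]
    simp [hZ]
  have h2 : (Z.submatrix Fin.succ (Fin.succAbove (Fin.last N))).det = (-1) ^ N := by
    have : (Z.submatrix Fin.succ (Fin.succAbove (Fin.last N))).det =
        ∏ i, (Z.submatrix Fin.succ (Fin.succAbove (Fin.last N))) i i := by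
      apply Matrix.det_of_isUpperTriangular
      intro i j hij
      have hij' : j < i := hij
      have h3 : j.val < i.val := hij'
      have h1 : i.succ ≠ j.castSucc := by
        intro h
        have := congrArg Fin.val h
        simp at this
        omega
      have h2 : ¬ ((i.succ).val = (j.castSucc).val + 1) := by
        simp only [Fin.val_succ, Fin.val_castSucc]
        omega
      simp only [Matrix.submatrix_apply, Fin.succAbove_last, hZ, Matrix.of_apply, if_neg h1, if_neg h2]
      simp
    rw [this]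
    have h3 : ∀ i : Fin N, (Z.submatrix Fin.succ (Fin.succAbove (Fin.last N))) i i = -1 := by
      intro i
      have h1 : i.succ ≠ i.castSucc := by
        intro h
        have := congrArg Fin.val h
        simp at this
      simp only [Matrix.submatrix_apply, Fin.succAbove_last, hZ, Matrix.of_apply, if_neg h1]
      simp
    rw [Finset.prod_congr rfl (fun i _ => h3 i)]
    simp
  rw [Matrix.det_succ_row_zero]
  have hrow : ∀ j, Z 0 j = (if j = 0 then s else 0) - (if j = Fin.last N then u else 0) := by
    intro j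
    simp [hZ, eq_comm]
  have : ∀ j : Fin (N + 1), (-1) ^ (j : ℕ) * Z 0 j * (Z.submatrix Fin.succ j.succAbove).det =
      (if j = 0 then s * s ^ N else 0) - (if j = Fin.last N then u else 0) := by
    intro j
    rw [hrow, mul_sub, sub_mul]
    congr 1
    · by_cases hj : j = 0
      · subst hj
        rw [h1]
        simp
      · simp [hj]
    · by_cases hj : j = Fin.last N
      · subst hj
        rw [h2]
        simp only [if_true, Fin.val_last]
        rw [mul_comm ((-1) ^ N) u, mul_assoc, ← mul_pow]; simp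
      · simp [hj]
  simp only [this, Finset.sum_sub_distrib, Finset.sum_ite_eq', Finset.mem_univ, if_true]
  ring

theorem totalDegree_det_le {σ S : Type*} [CommRing S] {n : ℕ}
    (M : Matrix (Fin n) (Fin n) (MvPolynomial σ S)) (h : ∀ i j, (M i j).totalDegree ≤ 1) :
    M.det.totalDegree ≤ n := by
  rw [Matrix.det_apply]
  apply MvPolynomial.totalDegree_finsetSum_le
  intro τ _
  have h1 : (∏ i, M (τ i) i).totalDegree ≤ n := by
    refine (MvPolynomial.totalDegree_finsetProd _ _).trans ?_
    refine (Finset.sum_le_card_nsmul Finset.univ _ 1 (fun i _ => h _ _)).trans ?_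
    simp
  rcases Int.units_eq_one_or (Equiv.Perm.sign τ) with hs | hs
  · rw [hs, one_smul]; exact h1
  · rw [hs, Units.neg_smul, one_smul, MvPolynomial.totalDegree_neg]; exact h1

theorem totalDegree_adjugate_le {σ S : Type*} [CommRing S] {n : ℕ}
    (M : Matrix (Fin (n + 1)) (Fin (n + 1)) (MvPolynomial σ S)) (h : ∀ i j, (M i j).totalDegree ≤ 1)
    (i j : Fin (n + 1)) :
    (M.adjugate i j).totalDegree ≤ n := by
  rw [Matrix.adjugate_fin_succ_eq_det_submatrix]
  have h1 : ((M.submatrix j.succAbove i.succAbove).det).totalDegree ≤ n :=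
    totalDegree_det_le _ (fun a b => h _ _)
  rcases neg_one_pow_eq_or (MvPolynomial σ S) (j.val + i.val) with hs | hs
  · rw [hs, one_mul]; exact h1
  · rw [hs, neg_one_mul, MvPolynomial.totalDegree_neg]; exact h1

/-- The special point `X⁰`, described as a function of (which of the three matrices, row, column). -/
def specialPt (N : ℕ) (S : Type*) [CommRing S] (a : ℕ) (i j : Fin (N + 2)) : S :=
  if a = 0 then (if i = j ∧ i ≠ Fin.last _ then 1 else 0)
  else if a = 1 then (if i.val = j.val + 1 ∧ i ≠ Fin.last _ then -1 else 0)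
  else if a = 2 then (if i = 0 ∧ j.val = N then -1 else 0)
  else 0

theorem special_adj {S : Type*} [CommRing S] (N : ℕ) (s u : S) :
    (Matrix.of fun i j : Fin (N + 2) => s * specialPt N S 0 i j + specialPt N S 1 i j
      + u * specialPt N S 2 i j : Matrix _ _ S).adjugate (Fin.last _) (Fin.last _) = s ^ (N + 1) - u := by
  rw [Matrix.adjugate_fin_succ_eq_det_submatrix, ← det_special N s u]
  have : ((-1 : S) ^ ((Fin.last (N + 1)).val + (Fin.last (N + 1)).val)) = 1 := by
    rw [← two_mul, pow_mul]; simp
  rw [this, one_mul]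
  congr 1
  ext i j
  have hi : i.castSucc ≠ Fin.last (N + 1) := (Fin.castSucc_lt_last i).ne
  have hj : (j = Fin.last N) ↔ (j.castSucc.val = N) := by
    rw [Fin.ext_iff]; simp
  have hi0 : (i.castSucc = 0) ↔ (i = 0) := by simp
  simp only [Matrix.submatrix_apply, Fin.succAbove_last, Matrix.of_apply, specialPt, if_true,
    if_false, hi, ne_eq, not_false_eq_true, and_true, Fin.castSucc_inj, hi0, hj,
    one_ne_zero, OfNat.ofNat_ne_zero, OfNat.ofNat_ne_one, Fin.val_castSucc]
  split_ifs <;> ring

theorem irreducible_special (k : Type*) [Field k] (N : ℕ) :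
    Irreducible (X 0 ^ (N + 1) - X 1 : MvPolynomial (Fin 2) k) := by
  have h1 : (aeval (R := k) ![(X 0 : MvPolynomial (Fin 2) k), X 1 + X 0 ^ (N + 1)]).comp
      (aeval (R := k) ![(X 0 : MvPolynomial (Fin 2) k), X 1 - X 0 ^ (N + 1)]) = AlgHom.id k _ := by
    apply MvPolynomial.algHom_ext
    intro i
    fin_cases i <;> simp
  have h2 : (aeval (R := k) ![(X 0 : MvPolynomial (Fin 2) k), X 1 - X 0 ^ (N + 1)]).comp
      (aeval (R := k) ![(X 0 : MvPolynomial (Fin 2) k), X 1 + X 0 ^ (N + 1)]) = AlgHom.id k _ := by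
    apply MvPolynomial.algHom_ext
    intro i
    fin_cases i <;> simp
  let e : MvPolynomial (Fin 2) k ≃ₐ[k] MvPolynomial (Fin 2) k := AlgEquiv.ofAlgHom _ _ h1 h2
  have h3 : Irreducible (X 1 : MvPolynomial (Fin 2) k) := (MvPolynomial.X_prime).irreducible
  have h4 : e (X 0 ^ (N + 1) - X 1) = - X 1 := by
    simp [e, AlgEquiv.ofAlgHom]
  rw [← MulEquiv.irreducible_iff e.toMulEquiv]
  have h5 : Irreducible (- X 1 : MvPolynomial (Fin 2) k) :=
    (Associated.neg_right (Associated.refl _)).irreducible h3
  rw [← h4] at h5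
  exact h5

section Main

variable {N m : ℕ}

/-- `P`: determinant of `X_{e0}` with last row replaced by the first row of `X_{e1}`. -/
noncomputable def polyP (N : ℕ) {m : ℕ} (e0 e1 : Fin m) : CoordRing (N + 2) m :=
  ((genericMatrix (N + 2) m e0).updateRow (Fin.last _) (fun j => genericMatrix (N + 2) m e1 0 j)).det

/-- `Q`: determinant of `X_{e0}` with last column replaced by the first column of `X_{e2}`. -/
noncomputable def polyQ (N : ℕ) {m : ℕ} (e0 e2 : Fin m) : CoordRing (N + 2) m :=
  ((genericMatrix (N + 2) m e0).updateCol (Fin.last _) (fun i => genericMatrix (N + 2) m e2 i 0)).det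

/-- The base point. -/
def basePt (N m : ℕ) : Fin m × Fin (N + 2) × Fin (N + 2) → ℂ :=
  fun q => specialPt N ℂ q.1.val q.2.1 q.2.2

theorem map_specialPt {S T : Type*} [CommRing S] [CommRing T] (f : S →+* T) (N a : ℕ)
    (i j : Fin (N + 2)) : f (specialPt N S a i j) = specialPt N T a i j := by
  unfold specialPt
  split_ifs <;> simp

theorem key_dichotomy (hm : 3 ≤ m) {K : Type*} [Field K] (ψ : CoordRing (N + 2) m →+* K)
    (hJ : ∀ c, ψ (detPoly (N + 2) m c) = 0)
    (hker : RingHom.ker ψ ≤ RingHom.ker (eval (basePt N m))) :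
    ψ (polyP N (⟨0, by omega⟩ : Fin m) ⟨1, by omega⟩) = 0 ∨
      ψ (polyQ N (⟨0, by omega⟩ : Fin m) ⟨2, by omega⟩) = 0 := by
  classical
  set e0 : Fin m := ⟨0, by omega⟩ with he0
  set e1 : Fin m := ⟨1, by omega⟩ with he1
  set e2 : Fin m := ⟨2, by omega⟩ with he2
  have hm_top : RingHom.ker (eval (basePt N m)) ≠ ⊤ := RingHom.ker_ne_top _
  obtain ⟨O, hO1, hO2⟩ := exists_dominating ψ _ hm_top hker
  set φ : CoordRing (N + 2) m →+* O := ψ.codRestrict O hO1 with hφ
  have hφψ : ∀ r, O.subtype (φ r) = ψ r := fun r => rfl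
  set ρ : CoordRing (N + 2) m →+* IsLocalRing.ResidueField O := (IsLocalRing.residue O).comp φ with hρ
  have hρ0 : ∀ r ∈ RingHom.ker (eval (basePt N m)), ρ r = 0 := by
    intro r hr
    have h1 := hO2 r hr
    rw [hρ, RingHom.comp_apply, IsLocalRing.residue_eq_zero_iff]
    rw [← ValuationSubring.coe_mem_nonunits_iff]
    exact h1
  have hρX : ∀ q, ρ (X q) = specialPt N (IsLocalRing.ResidueField O) q.1.val q.2.1 q.2.2 := by
    intro q
    have h1 : (X q - C (basePt N m q) : CoordRing (N + 2) m) ∈ RingHom.ker (eval (basePt N m)) := by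
      rw [RingHom.mem_ker]; simp
    have h2 := hρ0 _ h1
    rw [map_sub, sub_eq_zero] at h2
    rw [h2]
    have h3 := map_specialPt (ρ.comp (C : ℂ →+* CoordRing (N + 2) m)) N q.1.val q.2.1 q.2.2
    exact h3
  -- the pencil over O
  set MO : Matrix (Fin (N + 2)) (Fin (N + 2)) (MvPolynomial (Fin 2) O) := Matrix.of fun i j =>
    X 0 * C (φ (X (e0, i, j))) + C (φ (X (e1, i, j))) + X 1 * C (φ (X (e2, i, j))) with hMO
  set MK : Matrix (Fin (N + 2)) (Fin (N + 2)) (MvPolynomial (Fin 2) K) := Matrix.of fun i j =>
    X 0 * C (ψ (X (e0, i, j))) + C (ψ (X (e1, i, j))) + X 1 * C (ψ (X (e2, i, j))) with hMK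
  have hMOK : (map O.subtype).mapMatrix MO = MK := by
    ext1 i j
    simp only [hMO, hMK, RingHom.mapMatrix_apply, Matrix.map_apply, Matrix.of_apply, map_add, map_mul,
      map_X, map_C, hφψ]
  have hdegaux : ∀ {S : Type _} [CommRing S] (a b c : S),
      (X 0 * C a + C b + X 1 * C c : MvPolynomial (Fin 2) S).totalDegree ≤ 1 := by
    intro S _ a b c
    have h1 : ∀ (i : Fin 2) (a : S), (X i * C a : MvPolynomial (Fin 2) S).totalDegree ≤ 1 := by
      intro i a
      refine (MvPolynomial.totalDegree_mul _ _).trans ?_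
      rw [MvPolynomial.totalDegree_C, add_zero]
      rcases subsingleton_or_nontrivial S with hS | hS
      · have : (X i : MvPolynomial (Fin 2) S) = 0 := Subsingleton.elim _ _
        rw [this]; simp
      · rw [MvPolynomial.totalDegree_X]
    refine (MvPolynomial.totalDegree_add _ _).trans (max_le ?_ (h1 _ _))
    refine (MvPolynomial.totalDegree_add _ _).trans (max_le (h1 _ _) ?_)
    rw [MvPolynomial.totalDegree_C]; omega
  set z : MvPolynomial (Fin 2) O := MO.adjugate (Fin.last _) (Fin.last _) with hz
  have hzK : map O.subtype z = MK.adjugate (Fin.last _) (Fin.last _) := by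
    rw [← hMOK, ← RingHom.map_adjugate]; rfl
  have hzres : map (IsLocalRing.residue O) z = X 0 ^ (N + 1) - X 1 := by
    have h1 : map (IsLocalRing.residue O) z =
        ((map (IsLocalRing.residue O)).mapMatrix MO).adjugate (Fin.last _) (Fin.last _) := by
      rw [← RingHom.map_adjugate]; rfl
    rw [h1, ← special_adj N (X 0 : MvPolynomial (Fin 2) (IsLocalRing.ResidueField O)) (X 1)]
    refine congrArg (fun M : Matrix (Fin (N + 2)) (Fin (N + 2)) _ =>
      M.adjugate (Fin.last (N + 1)) (Fin.last (N + 1))) ?_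
    ext1 i j
    have hc : ∀ q, (IsLocalRing.residue O) (φ (X q)) = ρ (X q) := fun q => rfl
    simp only [hMO, RingHom.mapMatrix_apply, Matrix.map_apply, Matrix.of_apply, map_add, map_mul,
      map_X, map_C, hc, hρX]
    have h3 := fun a => map_specialPt (C : IsLocalRing.ResidueField O →+* MvPolynomial (Fin 2) _) N a i j
    simp only [h3]
    rfl
  have hzdeg : z.totalDegree ≤ N + 1 := totalDegree_adjugate_le MO (fun i j => hdegaux _ _ _) _ _
  have hresdeg : N + 1 ≤ (map (IsLocalRing.residue O) z).totalDegree := by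
    rw [hzres]
    have h1 : (Finsupp.single (0 : Fin 2) (N + 1)) ∈
        (X 0 ^ (N + 1) - X 1 : MvPolynomial (Fin 2) (IsLocalRing.ResidueField O)).support := by
      have : ¬ (Finsupp.single (1 : Fin 2) 1 = Finsupp.single (0 : Fin 2) (N + 1)) := by
        intro h
        have := DFunLike.congr_fun h 1
        simp at this
      rw [MvPolynomial.mem_support_iff, MvPolynomial.coeff_sub, MvPolynomial.coeff_X_pow,
        MvPolynomial.coeff_X, if_neg this, if_pos rfl]
      simp
    have h2 := MvPolynomial.le_totalDegree h1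
    rwa [Finsupp.sum_single_index rfl] at h2
  have hresirr : Irreducible (map (IsLocalRing.residue O) z) := by
    rw [hzres]; exact irreducible_special _ N
  have hzirr : Irreducible (map O.subtype z) := irreducible_of_residue O z hresirr (hzdeg.trans hresdeg)
  have hzprime : Prime (MK.adjugate (Fin.last _) (Fin.last _)) := by
    rw [← hzK]; exact hzirr.prime
  have hzKdeg : N + 1 ≤ (MK.adjugate (Fin.last _) (Fin.last _)).totalDegree := by
    rw [← hzK, totalDegree_map_inj _ O.subtype_injective]
    exact hresdeg.trans (totalDegree_map_le' _ _)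
  have hsum : ∀ (a : ℂ) (e : Fin m) (f : Fin m → K),
      ∑ k, ψ (C ((Pi.single e a : Fin m → ℂ) k)) * f k = ψ (C a) * f e := by
    intro a e f
    rw [Finset.sum_eq_single e]
    · simp
    · intro b _ hb
      simp [Pi.single_eq_of_ne hb]
    · intro h; exact absurd (Finset.mem_univ _) h
  have hdetMK : MK.det = 0 := by
    apply MvPolynomial.funext_set (fun _ => Set.range (ψ.comp (C : ℂ →+* CoordRing (N + 2) m)))
    · intro _
      exact Set.infinite_range_of_injective (RingHom.injective _)
    · intro x hx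
      obtain ⟨a0, ha0⟩ := hx 0 (Set.mem_univ _)
      obtain ⟨a1, ha1⟩ := hx 1 (Set.mem_univ _)
      rw [map_zero, ← hJ (Pi.single e0 a0 + Pi.single e1 1 + Pi.single e2 a1), map_detPoly ψ,
        RingHom.map_det]
      congr 1
      ext i j
      simp only [Pi.add_apply, map_add, add_mul, Finset.sum_add_distrib, hsum, map_one, one_mul,
        Matrix.of_apply, RingHom.mapMatrix_apply, Matrix.map_apply, hMK, map_mul, eval_X, eval_C]
      rw [← ha0, ← ha1]
      simp only [RingHom.comp_apply]
  have hadjdeg : ∀ i j, (MK.adjugate i j).totalDegree ≤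
      (MK.adjugate (Fin.last _) (Fin.last _)).totalDegree := fun i j =>
    (totalDegree_adjugate_le MK (fun i j => hdegaux _ _ _) i j).trans hzKdeg
  -- coefficient extraction
  have hcoef : ∀ a b c : K, (X 0 * C a + C b + X 1 * C c : MvPolynomial (Fin 2) K) = 0 →
      a = 0 ∧ b = 0 ∧ c = 0 := by
    intro a b c h
    have h00 := congrArg (eval ![0, 0]) h
    have h10 := congrArg (eval ![1, 0]) h
    have h01 := congrArg (eval ![0, 1]) h
    simp at h00 h10 h01
    subst h00
    exact ⟨by simpa using h10, rfl, by simpa using h01⟩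
  rcases exists_const_kernel MK hdetMK (Fin.last _) hzprime hadjdeg with ⟨v, hv1, hv⟩ | ⟨v, hv1, hv⟩
  · left
    have hrow : ∀ i, (∑ j, ψ (X (e0, i, j)) * v j = 0) ∧ (∑ j, ψ (X (e1, i, j)) * v j = 0) ∧
        (∑ j, ψ (X (e2, i, j)) * v j = 0) := by
      intro i
      apply hcoef
      refine Eq.trans ?_ (congrFun hv i)
      simp only [Matrix.mulVec, dotProduct, hMK, Matrix.of_apply, map_sum, map_mul, add_mul,
        Finset.sum_add_distrib, Finset.mul_sum, mul_assoc]
    rw [polyP, RingHom.map_det]
    rw [← Matrix.exists_mulVec_eq_zero_iff]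
    refine ⟨v, fun h => by rw [h] at hv1; simp at hv1, ?_⟩
    ext i
    by_cases hi : i = Fin.last _
    · subst hi
      simpa [Matrix.mulVec, dotProduct, genericMatrix] using (hrow 0).2.1
    · simpa [Matrix.mulVec, dotProduct, genericMatrix, hi] using (hrow i).1
  · right
    have hcol : ∀ j, (∑ i, ψ (X (e0, i, j)) * v i = 0) ∧ (∑ i, ψ (X (e1, i, j)) * v i = 0) ∧
        (∑ i, ψ (X (e2, i, j)) * v i = 0) := by
      intro j
      apply hcoef
      refine Eq.trans ?_ (congrFun hv j)
      simp only [Matrix.vecMul, dotProduct, hMK, Matrix.of_apply, map_sum, map_mul, mul_add,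
        Finset.sum_add_distrib, Finset.mul_sum]
      refine congrArg₂ _ (congrArg₂ _ ?_ ?_) ?_ <;>
      · refine Finset.sum_congr rfl fun k _ => ?_
        ring
    rw [polyQ, RingHom.map_det]
    rw [← Matrix.exists_vecMul_eq_zero_iff]
    refine ⟨v, fun h => by rw [h] at hv1; simp at hv1, ?_⟩
    ext j
    by_cases hj : j = Fin.last _
    · subst hj
      simpa [Matrix.vecMul, dotProduct, genericMatrix, mul_comm] using (hcol 0).2.2
    · simpa [Matrix.vecMul, dotProduct, genericMatrix, hj, mul_comm] using (hcol j).1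

end Main

end Pool.Agent.Lib_MP_dea706_ag
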