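import Mathlib
import Pool.Agent.Lib_MP_dea706_ag.Negative

set_option autoImplicit false

namespace Pool.Agent.Lib_MP_dea706_ag

open MvPolynomial Matrix

/-- The test ring `ℂ[x,y]/(x²,y²)`. -/
abbrev TestRing : Type := DualNumber (DualNumber ℂ)

noncomputable def tx : TestRing := TrivSqZeroExt.inl DualNumber.eps
noncomputable def ty : TestRing := DualNumber.eps

theorem tx_sq : tx * tx = 0 := by
  simp [tx, ← TrivSqZeroExt.inl_mul]

theorem ty_sq : ty * ty = 0 := by
  simp [ty]

/-- Augmentation. -/
noncomputable def aug : TestRing →+* ℂ :=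
  ((TrivSqZeroExt.fstHom ℂ ℂ ℂ : DualNumber ℂ →ₐ[ℂ] ℂ) : DualNumber ℂ →+* ℂ).comp
    ((TrivSqZeroExt.fstHom (DualNumber ℂ) (DualNumber ℂ) (DualNumber ℂ) :
      DualNumber (DualNumber ℂ) →ₐ[DualNumber ℂ] DualNumber ℂ) : DualNumber (DualNumber ℂ) →+* DualNumber ℂ)

theorem aug_tx : aug tx = 0 := by simp [aug, tx]
theorem aug_ty : aug ty = 0 := by simp [aug, ty]
theorem aug_algebraMap (c : ℂ) : aug (algebraMap ℂ TestRing c) = c := rfl

theorem mul_txy (a : TestRing) : a * (tx * ty) = algebraMap ℂ TestRing (aug a) * (tx * ty) := by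
  ext <;> simp [tx, ty]
  rfl

theorem txy_ne : tx * ty ≠ 0 := by
  intro h
  have h1 := congrArg (fun z : TestRing => z.snd.snd) h
  simp [tx, ty] at h1

/-- the perturbation part of the test point. -/
noncomputable def testPt (N m : ℕ) : Fin m × Fin (N + 2) × Fin (N + 2) → TestRing :=
  fun q => specialPt N TestRing q.1.val q.2.1 q.2.2 +
    (if q.1.val = 1 then
      (if q.2.1 = 0 ∧ q.2.2 = Fin.last _ then tx else 0) + (if q.2.1 = Fin.last _ ∧ q.2.2 = 0 then tx else 0)
    else 0) +
    (if q.1.val = 2 then
      (if q.2.1 = 0 ∧ q.2.2 = Fin.last _ then -ty else 0) + (if q.2.1 = Fin.last _ ∧ q.2.2 = 0 then ty else 0)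
    else 0)

noncomputable def testHom (N m : ℕ) : CoordRing (N + 2) m →+* TestRing :=
  (aeval (testPt N m) : CoordRing (N + 2) m →ₐ[ℂ] TestRing)

theorem testHom_X (N m : ℕ) (q : Fin m × Fin (N + 2) × Fin (N + 2)) :
    testHom N m (X q) = testPt N m q := by
  simp [testHom]

theorem testHom_C (N m : ℕ) (c : ℂ) :
    testHom N m (C c) = algebraMap ℂ TestRing c := by
  simp [testHom]

theorem aug_testHom (N m : ℕ) (r : CoordRing (N + 2) m) :
    aug (testHom N m r) = eval (basePt N m) r := by
  have : (aug.comp (testHom N m)) = (eval (basePt N m) : CoordRing (N + 2) m →+* ℂ) := by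
    apply MvPolynomial.ringHom_ext
    · intro c
      rw [RingHom.comp_apply, testHom_C, aug_algebraMap, eval_C]
    · intro q
      rw [RingHom.comp_apply, testHom_X, eval_X, testPt, basePt, RingHom.map_add, RingHom.map_add,
        map_specialPt (S := TestRing) (T := ℂ) aug]
      have h1 : aug (if q.1.val = 1 then
        (if q.2.1 = 0 ∧ q.2.2 = Fin.last _ then tx else 0) +
        (if q.2.1 = Fin.last _ ∧ q.2.2 = 0 then tx else 0) else 0) = 0 := by
        split_ifs <;> simp only [RingHom.map_add, RingHom.map_zero, aug_tx, add_zero]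
      have h2 : aug (if q.1.val = 2 then
        (if q.2.1 = 0 ∧ q.2.2 = Fin.last _ then -ty else 0) +
        (if q.2.1 = Fin.last _ ∧ q.2.2 = 0 then ty else 0) else 0) = 0 := by
        split_ifs <;> simp only [RingHom.map_add, RingHom.map_neg, RingHom.map_zero, aug_ty, add_zero,
          neg_zero]
      rw [h1, h2]; ring
  rw [← this]; rfl

theorem det_cross {S : Type*} [CommRing S] {n : ℕ} (M : Matrix (Fin (n + 2)) (Fin (n + 2)) S) (β γ : S)
    (hβγ : γ * β = 0)
    (hrow : ∀ j, M (Fin.last _) j = if j = 0 then γ else 0)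
    (hcol : ∀ i, M i (Fin.last _) = if i = 0 then β else 0) : M.det = 0 := by
  classical
  have h1 : M = M.updateRow (Fin.last _) (γ • Pi.single 0 1) := by
    ext i j
    by_cases hi : i = Fin.last _
    · subst hi
      simp [hrow, Pi.single_apply]
    · simp [hi]
  set M2 := M.updateRow (Fin.last _) (Pi.single 0 1) with hM2
  have h2 : M2 = M2.updateCol (Fin.last _) (β • Pi.single 0 1) := by
    ext i j
    by_cases hj : j = Fin.last _
    · subst hj
      by_cases hi : i = Fin.last _
      · subst hi
        simp [hM2]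
      · simp [hM2, hi, hcol, Pi.single_apply]
    · simp [hj]
  rw [h1, Matrix.det_updateRow_smul, ← hM2, h2, Matrix.det_updateCol_smul, ← mul_assoc, hβγ, zero_mul]

theorem zero_ne_last' (N : ℕ) : (0 : Fin (N + 2)) ≠ Fin.last (N + 1) := (Fin.last_pos).ne

theorem testPt_last_row (N m : ℕ) (k : Fin m) (j : Fin (N + 2)) :
    testPt N m (k, Fin.last _, j) =
      if j = 0 then (if k.val = 1 then tx else 0) + (if k.val = 2 then ty else 0) else 0 := by
  have h0 : specialPt N TestRing k.val (Fin.last _) j = 0 := by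
    unfold specialPt
    split_ifs with h1 h2 h3 h4 h5 h6
    · exact absurd rfl h2.2
    · rfl
    · exact absurd rfl h4.2
    · rfl
    · exact absurd h6.1.symm (zero_ne_last' N)
    · rfl
    · rfl
  rw [testPt, h0]
  simp only [(zero_ne_last' N).symm, false_and, if_false, true_and, zero_add]
  by_cases hj : j = 0
  · simp only [hj, if_true]
  · simp only [hj, if_false, ite_self, add_zero]

theorem testPt_last_col (N m : ℕ) (k : Fin m) (i : Fin (N + 2)) :
    testPt N m (k, i, Fin.last _) =
      if i = 0 then (if k.val = 1 then tx else 0) + (if k.val = 2 then -ty else 0) else 0 := by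
  have h0 : specialPt N TestRing k.val i (Fin.last _) = 0 := by
    unfold specialPt
    split_ifs with h1 h2 h3 h4 h5 h6
    · exact absurd h2.1 h2.2
    · rfl
    · exfalso
      have := h4.1
      have := i.isLt
      simp only [Fin.val_last] at *
      omega
    · rfl
    · exfalso
      have := h6.2
      simp only [Fin.val_last] at *
      omega
    · rfl
    · rfl
  rw [testPt, h0]
  simp only [(zero_ne_last' N).symm, and_false, if_false, and_true, zero_add, add_zero]
  by_cases hi : i = 0
  · simp only [hi, if_true]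
  · simp only [hi, if_false, ite_self, add_zero]

theorem testHom_detPoly (N m : ℕ) (c : Fin m → ℂ) : testHom N m (detPoly (N + 2) m c) = 0 := by
  classical
  rw [map_detPoly (S := TestRing) (testHom N m)]
  set A : TestRing := ∑ k : Fin m, algebraMap ℂ TestRing (c k) * (if k.val = 1 then 1 else 0) with hA
  set B : TestRing := ∑ k : Fin m, algebraMap ℂ TestRing (c k) * (if k.val = 2 then 1 else 0) with hB
  apply det_cross _ (A * tx + B * (-ty)) (A * tx + B * ty)
  · have : (A * tx + B * ty) * (A * tx + B * (-ty)) = A * A * (tx * tx) - B * B * (ty * ty) := by ring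
    rw [this, tx_sq, ty_sq]; ring
  · intro j
    simp only [Matrix.of_apply, testHom_C, testHom_X, testPt_last_row]
    by_cases hj : j = 0
    · simp only [hj, if_true, hA, hB, Finset.sum_mul, ← Finset.sum_add_distrib]
      refine Finset.sum_congr rfl fun k _ => ?_
      by_cases h1 : k.val = 1
      · simp only [h1, if_true]; simp
      · by_cases h2 : k.val = 2
        · simp only [h2, if_true]; simp
        · simp only [h1, h2, if_false]; ring
    · simp only [hj, if_false, mul_zero, Finset.sum_const_zero]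
  · intro i
    simp only [Matrix.of_apply, testHom_C, testHom_X, testPt_last_col]
    by_cases hi : i = 0
    · simp only [hi, if_true, hA, hB, Finset.sum_mul, ← Finset.sum_add_distrib]
      refine Finset.sum_congr rfl fun k _ => ?_
      by_cases h1 : k.val = 1
      · simp only [h1, if_true]; simp
      · by_cases h2 : k.val = 2
        · simp only [h2, if_true]; simp
        · simp only [h1, h2, if_false]; ring
    · simp only [hi, if_false, mul_zero, Finset.sum_const_zero]

theorem testPt_zero (N m : ℕ) (k : Fin m) (hk : k.val = 0) (i j : Fin (N + 2)) :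
    testPt N m (k, i, j) = if i = j ∧ i ≠ Fin.last _ then 1 else 0 := by
  simp [testPt, hk, specialPt]

theorem testHom_P (N m : ℕ) (e0 e1 : Fin m) (h0 : e0.val = 0) (h1 : e1.val = 1) :
    testHom N m (polyP N e0 e1) = tx := by
  rw [polyP, RingHom.map_det (S := TestRing) (testHom N m)]
  have hent : ∀ i j, ((testHom N m).mapMatrix ((genericMatrix (N + 2) m e0).updateRow (Fin.last _)
      (fun j => genericMatrix (N + 2) m e1 0 j))) i j = if i = Fin.last _ then testPt N m (e1, 0, j)
        else testPt N m (e0, i, j) := by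
    intro i j
    by_cases hi : i = Fin.last _
    · simp [hi, genericMatrix, testHom_X]
    · simp [hi, genericMatrix, testHom_X]
  rw [Matrix.det_of_isLowerTriangular]
  · rw [Fin.prod_univ_castSucc, hent, if_pos rfl, testPt_last_col]
    rw [Finset.prod_eq_one]
    · simp [h1]
    · intro i _
      have hi : i.castSucc ≠ Fin.last (N + 1) := (Fin.castSucc_lt_last i).ne
      rw [hent, if_neg hi, testPt_zero N m e0 h0, if_pos ⟨rfl, hi⟩]
  · intro i j hij
    have hij' : i < j := hij
    have hi : i ≠ Fin.last (N + 1) := (lt_of_lt_of_le hij' (Fin.le_last j)).ne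
    rw [hent, if_neg hi, testPt_zero N m e0 h0, if_neg (fun h => hij'.ne h.1)]

theorem testHom_Q (N m : ℕ) (e0 e2 : Fin m) (h0 : e0.val = 0) (h2 : e2.val = 2) :
    testHom N m (polyQ N e0 e2) = ty := by
  rw [polyQ, RingHom.map_det (S := TestRing) (testHom N m)]
  have hent : ∀ i j, ((testHom N m).mapMatrix ((genericMatrix (N + 2) m e0).updateCol (Fin.last _)
      (fun i => genericMatrix (N + 2) m e2 i 0))) i j = if j = Fin.last _ then testPt N m (e2, i, 0)
        else testPt N m (e0, i, j) := by
    intro i j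
    by_cases hj : j = Fin.last _
    · simp [hj, genericMatrix, testHom_X]
    · simp [hj, genericMatrix, testHom_X]
  rw [Matrix.det_of_isUpperTriangular]
  · rw [Fin.prod_univ_castSucc, hent, if_pos rfl, testPt_last_row]
    rw [Finset.prod_eq_one]
    · simp [h2]
    · intro i _
      have hi : i.castSucc ≠ Fin.last (N + 1) := (Fin.castSucc_lt_last i).ne
      rw [hent, if_neg hi, testPt_zero N m e0 h0, if_pos ⟨rfl, hi⟩]
  · intro i j hij
    have hij' : j < i := hij
    have hj : j ≠ Fin.last (N + 1) := (lt_of_lt_of_le hij' (Fin.le_last i)).ne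
    rw [hent, if_neg hj, testPt_zero N m e0 h0, if_neg (fun h => hij'.ne' h.1)]

/-- For all `n = N + 2 ≥ 2` and `m ≥ 3`, some polynomial vanishes on `SING_{n,m}` but does not lie in
the ideal generated by the determinantal polynomials. -/
theorem exists_not_mem (N m : ℕ) (hm : 3 ≤ m) :
    ∃ p : CoordRing (N + 2) m, (∀ x ∈ singSet (N + 2) m, eval x p = 0) ∧ p ∉ detIdeal (N + 2) m := by
  classical
  set e0 : Fin m := ⟨0, by omega⟩ with he0
  set e1 : Fin m := ⟨1, by omega⟩ with he1
  set e2 : Fin m := ⟨2, by omega⟩ with he2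
  set P := polyP N e0 e1 with hP
  set Q := polyQ N e0 e2 with hQ
  have hker : detIdeal (N + 2) m ≤ RingHom.ker (testHom N m) := by
    rw [detIdeal, Ideal.span_le]
    rintro _ ⟨c, rfl⟩
    exact testHom_detPoly N m c
  have hker0 : detIdeal (N + 2) m ≤ RingHom.ker (eval (basePt N m)) := by
    intro r hr
    have h1 := hker hr
    rw [RingHom.mem_ker] at h1 ⊢
    rw [← aug_testHom, h1, map_zero]
  have hprime : (RingHom.ker (eval (basePt N m))).IsPrime := RingHom.ker_isPrime _
  -- the multiplicative set
  let T : Submonoid (CoordRing (N + 2) m) :=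
    (RingHom.ker (eval (basePt N m))).primeCompl ⊔ Submonoid.powers (P * Q)
  have hT : ¬ Disjoint (detIdeal (N + 2) m : Set (CoordRing (N + 2) m)) (T : Set (CoordRing (N + 2) m)) := by
    intro hdis
    obtain ⟨q, hq, hJq, hqT⟩ := Ideal.exists_le_prime_disjoint _ T hdis
    have hq1 : q ≤ RingHom.ker (eval (basePt N m)) := by
      intro r hr
      by_contra hr'
      exact Set.disjoint_left.mp hqT hr (Submonoid.mem_sup_left hr')
    have hPQ : P * Q ∉ q := by
      intro hr
      exact Set.disjoint_left.mp hqT hr (Submonoid.mem_sup_right (Submonoid.mem_powers _))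
    set K := FractionRing (CoordRing (N + 2) m ⧸ q) with hK
    let ψ : CoordRing (N + 2) m →+* K := (algebraMap (CoordRing (N + 2) m ⧸ q) K).comp (Ideal.Quotient.mk q)
    have hψker : RingHom.ker ψ = q := by
      ext r
      rw [RingHom.mem_ker, RingHom.comp_apply]
      rw [map_eq_zero_iff _ (IsFractionRing.injective (CoordRing (N + 2) m ⧸ q) K),
        Ideal.Quotient.eq_zero_iff_mem]
    have hψJ : ∀ c, ψ (detPoly (N + 2) m c) = 0 := by
      intro c
      rw [← RingHom.mem_ker, hψker]
      exact hJq (Ideal.subset_span ⟨c, rfl⟩)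
    have h1 := key_dichotomy hm ψ hψJ (by rw [hψker]; exact hq1)
    apply hPQ
    rw [← hψker, RingHom.mem_ker, map_mul]
    rcases h1 with h1 | h1
    · rw [hP, h1, zero_mul]
    · rw [hQ, h1, mul_zero]
  rw [Set.not_disjoint_iff] at hT
  obtain ⟨r, hrJ, hrT⟩ := hT
  have hrT' : r ∈ T := hrT
  rw [Submonoid.mem_sup] at hrT'
  obtain ⟨s, hs, t, ⟨k, rfl⟩, hst⟩ := hrT'
  refine ⟨s * (P * Q), ?_, ?_⟩
  · intro x hx
    have hJx : detIdeal (N + 2) m ≤ RingHom.ker (eval x) := by
      rw [detIdeal, Ideal.span_le]
      rintro _ ⟨c, rfl⟩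
      exact (mem_singSet x).mp hx c
    have h1 : eval x r = 0 := hJx hrJ
    rw [← hst, map_mul, map_pow] at h1
    rw [map_mul]
    rcases mul_eq_zero.mp h1 with h2 | h2
    · rw [h2, zero_mul]
    · have h3 : eval x (P * Q) = 0 := by
        by_contra hne
        exact pow_ne_zero k hne h2
      rw [h3, mul_zero]
  · intro hmem
    have h1 : testHom N m (s * (P * Q)) = 0 := hker hmem
    rw [map_mul, map_mul, hP, hQ, testHom_P N m e0 e1 rfl rfl, testHom_Q N m e0 e2 rfl rfl, mul_txy,
      aug_testHom] at h1
    have h2 : eval (basePt N m) s ≠ 0 := by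
      intro h; exact hs h
    have h3 : algebraMap ℂ TestRing ((eval (basePt N m) s)⁻¹) *
        (algebraMap ℂ TestRing (eval (basePt N m) s) * (tx * ty)) = 0 := by rw [h1, mul_zero]
    rw [← mul_assoc, ← map_mul, inv_mul_cancel₀ h2, map_one, one_mul] at h3
    exact txy_ne h3

end Pool.Agent.Lib_MP_dea706_ag
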