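import Mathlib

set_option autoImplicit false

namespace Pool.Agent.Lib_MP_dea706_ag

open MvPolynomial

/-- Type synonym for the monomial order that first compares weights and then uses `m0`. -/
def WSyn {σ : Type*} (_m0 : MonomialOrder σ) (_w : (σ →₀ ℕ) →+ ℕ) : Type _ := σ →₀ ℕ

namespace WSyn

variable {σ : Type*} (m0 : MonomialOrder σ) (w : (σ →₀ ℕ) →+ ℕ)

noncomputable instance : AddCommMonoid (WSyn m0 w) := inferInstanceAs (AddCommMonoid (σ →₀ ℕ))

/-- identity equivalence -/
noncomputable def toEquiv : (σ →₀ ℕ) ≃+ WSyn m0 w := AddEquiv.refl _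

/-- comparison key -/
noncomputable def key (a : WSyn m0 w) : ℕ ×ₗ m0.syn :=
  toLex (w ((toEquiv m0 w).symm a), m0.toSyn ((toEquiv m0 w).symm a))

theorem key_injective : Function.Injective (key m0 w) := by
  intro a b h
  have h1 := congrArg (fun z => (ofLex z).2) h
  exact (toEquiv m0 w).symm.injective (m0.toSyn.injective h1)

noncomputable instance : LinearOrder (WSyn m0 w) := LinearOrder.lift' (key m0 w) (key_injective m0 w)

theorem le_iff' (a b : WSyn m0 w) : a ≤ b ↔ key m0 w a ≤ key m0 w b := Iff.rfl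
theorem lt_iff' (a b : WSyn m0 w) : a < b ↔ key m0 w a < key m0 w b := Iff.rfl

theorem le_iff (a b : WSyn m0 w) : a ≤ b ↔
    w ((toEquiv m0 w).symm a) < w ((toEquiv m0 w).symm b) ∨
    (w ((toEquiv m0 w).symm a) = w ((toEquiv m0 w).symm b) ∧
      m0.toSyn ((toEquiv m0 w).symm a) ≤ m0.toSyn ((toEquiv m0 w).symm b)) := by
  rw [le_iff', key, key, Prod.Lex.toLex_le_toLex]

theorem lt_of_weight_lt (a b : WSyn m0 w)
    (h : w ((toEquiv m0 w).symm a) < w ((toEquiv m0 w).symm b)) : a < b := by
  rw [lt_iff', key, key, Prod.Lex.toLex_lt_toLex]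
  exact Or.inl h

instance : IsOrderedAddMonoid (WSyn m0 w) where
  add_le_add_left a b h c := by
    rw [le_iff] at h ⊢
    simpa only [map_add, add_lt_add_iff_right, add_left_inj, add_le_add_iff_right] using h

instance : WellFoundedLT (WSyn m0 w) where
  wf := InvImage.wf (key m0 w) (wellFounded_lt (α := ℕ ×ₗ m0.syn))

end WSyn

/-- The monomial order comparing first weights, then `m0`. -/
noncomputable def weightOrder {σ : Type*} (m0 : MonomialOrder σ) (w : (σ →₀ ℕ) →+ ℕ) :
    MonomialOrder σ where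
  syn := WSyn m0 w
  toSyn := WSyn.toEquiv m0 w
  toSyn_monotone a b h := by
    rw [WSyn.le_iff]
    have h1 : w a ≤ w b := by
      rw [← add_tsub_cancel_of_le h, map_add]; exact Nat.le_add_right _ _
    rcases h1.lt_or_eq with h2 | h2
    · exact Or.inl h2
    · exact Or.inr ⟨h2, m0.toSyn_monotone h⟩

theorem degree_weightOrder {σ R : Type*} [CommSemiring R] (m0 : MonomialOrder σ) (w : (σ →₀ ℕ) →+ ℕ)
    (f : MvPolynomial σ R) (T : σ →₀ ℕ) (hT : T ∈ f.support)
    (h : ∀ μ ∈ f.support, μ ≠ T → w μ < w T) : (weightOrder m0 w).degree f = T := by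
  have hf : f ≠ 0 := by rintro rfl; simp at hT
  by_contra hne
  have h1 := h _ ((weightOrder m0 w).degree_mem_support hf) hne
  have h2 : (weightOrder m0 w).toSyn ((weightOrder m0 w).degree f) < (weightOrder m0 w).toSyn T :=
    WSyn.lt_of_weight_lt m0 w _ _ h1
  exact absurd ((weightOrder m0 w).le_degree hT) (not_le.mpr h2)

theorem exists_monomialOrder.{u} (σ : Type u) [Finite σ] : Nonempty (MonomialOrder.{u, u} σ) := by
  classical
  have := Fintype.ofFinite σ
  let : LinearOrder σ := LinearOrder.lift' (Fintype.equivFin σ) (Equiv.injective _)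
  exact ⟨MonomialOrder.lex⟩

end Pool.Agent.Lib_MP_dea706_ag
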