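import Mathlib
import Pool.Agent.Lib_MP_dea706_ag.Defs
import Pool.Agent.Lib_MP_dea706_ag.Coprime
import Pool.Agent.Lib_MP_dea706_ag.WeightOrder

set_option autoImplicit false

namespace Pool.Agent.Lib_MP_dea706_ag

open MvPolynomial

/-- The exponent of the monomial attached to a permutation `τ` and the set `S` of columns taken from
the second matrix. -/
noncomputable def exps {n : ℕ} (τ : Equiv.Perm (Fin n)) (S : Finset (Fin n)) :
    (Fin 2 × Fin n × Fin n) →₀ ℕ :=
  ∑ i, Finsupp.single ((if i ∈ S then 1 else 0 : Fin 2), τ i, i) 1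

theorem exps_apply {n : ℕ} (τ : Equiv.Perm (Fin n)) (S : Finset (Fin n)) (a : Fin 2) (r c : Fin n) :
    exps τ S (a, r, c) = if ((if c ∈ S then 1 else 0 : Fin 2) = a ∧ τ c = r) then 1 else 0 := by
  unfold exps
  rw [Finsupp.finsetSum_apply, Finset.sum_eq_single c]
  · rw [Finsupp.single_apply]
    simp
  · intro i _ hi
    rw [Finsupp.single_apply, if_neg]
    intro h
    simp only [Prod.mk.injEq] at h
    exact hi h.2.2
  · intro h; exact absurd (Finset.mem_univ _) h

theorem exps_injective {n : ℕ} (τ τ' : Equiv.Perm (Fin n)) (S S' : Finset (Fin n))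
    (h : exps τ S = exps τ' S') : τ = τ' ∧ S = S' := by
  have key : ∀ c, (if c ∈ S' then 1 else 0 : Fin 2) = (if c ∈ S then 1 else 0 : Fin 2) ∧ τ' c = τ c := by
    intro c
    have h1 := DFunLike.congr_fun h ((if c ∈ S then 1 else 0 : Fin 2), τ c, c)
    rw [exps_apply, exps_apply, if_pos ⟨rfl, rfl⟩] at h1
    by_contra hcon
    rw [if_neg hcon] at h1
    exact one_ne_zero h1
  constructor
  · ext c
    rw [(key c).2]
  · ext c
    have h1 := (key c).1
    by_cases hc : c ∈ S <;> by_cases hc' : c ∈ S' <;> simp [hc, hc'] at h1 ⊢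

/-- The coefficient polynomials of `det (s X_0 + t X_1)`. -/
noncomputable def gPoly (n k : ℕ) : CoordRing n 2 :=
  ∑ τ : Equiv.Perm (Fin n), ∑ S ∈ Finset.powersetCard k (Finset.univ : Finset (Fin n)),
    Equiv.Perm.sign τ • monomial (exps τ S) (1 : ℂ)

theorem detPoly_two (n : ℕ) (c : Fin 2 → ℂ) :
    detPoly n 2 c = ∑ k ∈ Finset.range (n + 1), C (c 0 ^ (n - k) * c 1 ^ k) * gPoly n k := by
  classical
  have h1 : detPoly n 2 c = ∑ τ : Equiv.Perm (Fin n), Equiv.Perm.sign τ •
      ∏ i, (C (c 1) * X (1, τ i, i) + C (c 0) * X (0, τ i, i)) := by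
    have hM : (∑ k, c k • genericMatrix n 2 k) = Matrix.of fun i j : Fin n =>
        (C (c 1) * X (1, i, j) + C (c 0) * X (0, i, j) : CoordRing n 2) := by
      ext1 i j
      rw [Fin.sum_univ_two]
      simp only [Matrix.add_apply, Matrix.smul_apply, genericMatrix, Matrix.of_apply,
        MvPolynomial.smul_eq_C_mul]
      rw [add_comm]
    rw [detPoly, hM, Matrix.det_apply]
    simp only [Matrix.of_apply]
  rw [h1]
  have h2 : ∀ τ : Equiv.Perm (Fin n), (∏ i, (C (c 1) * X (1, τ i, i) + C (c 0) * X (0, τ i, i)) : CoordRing n 2)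
      = ∑ k ∈ Finset.range (n + 1), ∑ S ∈ Finset.powersetCard k (Finset.univ : Finset (Fin n)),
        C (c 0 ^ (n - k) * c 1 ^ k) * monomial (exps τ S) (1 : ℂ) := by
    intro τ
    rw [Finset.prod_add, Finset.sum_powerset]
    simp only [Finset.card_univ, Fintype.card_fin]
    refine Finset.sum_congr rfl fun k _ => ?_
    refine Finset.sum_congr rfl fun S hS => ?_
    rw [Finset.mem_powersetCard] at hS
    have hmon : (monomial (exps τ S) (1 : ℂ) : CoordRing n 2) =
        (∏ i ∈ S, X (1, τ i, i)) * ∏ i ∈ Finset.univ \ S, X (0, τ i, i) := by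
      unfold exps
      rw [MvPolynomial.monomial_sum_one]
      rw [← Finset.prod_sdiff (Finset.subset_univ S), mul_comm]
      congr 1
      · refine Finset.prod_congr rfl fun i hi => ?_
        rw [if_pos hi]; rfl
      · refine Finset.prod_congr rfl fun i hi => ?_
        rw [if_neg (Finset.mem_sdiff.mp hi).2]; rfl
    rw [hmon, Finset.prod_mul_distrib, Finset.prod_mul_distrib, Finset.prod_const, Finset.prod_const,
      Finset.card_sdiff_of_subset (Finset.subset_univ S), hS.2, Finset.card_univ, Fintype.card_fin,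
      C_mul, C_pow, C_pow]
    ring
  simp only [h2, gPoly, Finset.mul_sum, Finset.smul_sum]
  rw [Finset.sum_comm]
  refine Finset.sum_congr rfl fun k _ => ?_
  refine Finset.sum_congr rfl fun τ _ => ?_
  refine Finset.sum_congr rfl fun S _ => ?_
  rw [mul_smul_comm]

theorem detIdeal_two (n : ℕ) :
    detIdeal n 2 = Ideal.span (Set.range fun k : Fin (n + 1) => gPoly n k.val) := by
  classical
  apply le_antisymm
  · rw [detIdeal, Ideal.span_le]
    rintro _ ⟨c, rfl⟩
    rw [SetLike.mem_coe, detPoly_two]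
    refine Ideal.sum_mem _ fun k hk => ?_
    refine Ideal.mul_mem_left _ _ (Ideal.subset_span ⟨⟨k, Finset.mem_range.mp hk⟩, rfl⟩)
  · rw [Ideal.span_le]
    rintro _ ⟨k, rfl⟩
    rw [SetLike.mem_coe]
    set a : Fin (n + 1) → ℂ := fun j => (j.val : ℂ) with ha
    have hainj : Function.Injective a := by
      intro i j h
      have h' : (i.val : ℂ) = (j.val : ℂ) := h
      exact Fin.ext (by exact_mod_cast h')
    set V := Matrix.vandermonde a with hV
    have hdet : V.det ≠ 0 := Matrix.det_vandermonde_ne_zero_iff.mpr hainj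
    have hinv : V⁻¹ * V = 1 := Matrix.nonsing_inv_mul _ (isUnit_iff_ne_zero.mpr hdet)
    have hf : ∀ j : Fin (n + 1), detPoly n 2 ![1, a j] = ∑ l : Fin (n + 1), C (V j l) * gPoly n l.val := by
      intro j
      rw [detPoly_two, Finset.sum_range]
      refine Finset.sum_congr rfl fun l _ => ?_
      simp [hV, Matrix.vandermonde_apply]
    have hg : gPoly n k.val = ∑ j, C (V⁻¹ k j) * detPoly n 2 ![1, a j] := by
      simp only [hf, Finset.mul_sum]
      rw [Finset.sum_comm]
      have : ∀ l : Fin (n + 1), ∑ j, C (V⁻¹ k j) * (C (V j l) * gPoly n l.val) =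
          C ((1 : Matrix (Fin (n + 1)) (Fin (n + 1)) ℂ) k l) * gPoly n l.val := by
        intro l
        rw [← hinv, Matrix.mul_apply, map_sum, Finset.sum_mul]
        refine Finset.sum_congr rfl fun j _ => ?_
        rw [C_mul]; ring
      simp only [this, Matrix.one_apply]
      rw [Finset.sum_eq_single k]
      · simp
      · intro l _ hl; simp [Ne.symm hl]
      · intro h; exact absurd (Finset.mem_univ _) h
    change gPoly n k.val ∈ detIdeal n 2
    rw [hg]
    refine Ideal.sum_mem _ fun j _ => ?_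
    exact Ideal.mul_mem_left _ _ (Ideal.subset_span ⟨_, rfl⟩)

/-- the permutation `i ↦ i + k mod n`. -/
def shiftPerm (N k : ℕ) : Equiv.Perm (Fin (N + 1)) := Equiv.addRight (Fin.ofNat (N + 1) k)

/-- the columns where `i ↦ i + k` wraps around. -/
def wrapSet (N k : ℕ) : Finset (Fin (N + 1)) := Finset.univ.filter fun i => N + 1 ≤ i.val + k

theorem shift_wrap (N k : ℕ) (hk : k ≤ N + 1) (i : Fin (N + 1)) :
    (shiftPerm N k i).val + (N + 1) * (if i ∈ wrapSet N k then 1 else 0) = i.val + k := by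
  have h1 : (shiftPerm N k i).val = (i.val + k) % (N + 1) := by
    simp [shiftPerm, Fin.val_add]
  have h2 : i ∈ wrapSet N k ↔ N + 1 ≤ i.val + k := by simp [wrapSet]
  rw [h1]
  have hi := i.isLt
  by_cases h : N + 1 ≤ i.val + k
  · rw [if_pos (h2.mpr h), Nat.mod_eq_sub_mod h, Nat.mod_eq_of_lt (by omega)]
    omega
  · rw [if_neg (fun h' => h (h2.mp h')), Nat.mod_eq_of_lt (by omega)]
    omega

theorem card_wrapSet (N k : ℕ) (hk : k ≤ N + 1) : (wrapSet N k).card = k := by
  have h := Finset.sum_congr rfl (fun i (_ : i ∈ (Finset.univ : Finset (Fin (N + 1)))) => shift_wrap N k hk i)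
  rw [Finset.sum_add_distrib, Finset.sum_add_distrib, Equiv.sum_comp (shiftPerm N k) (fun i => i.val),
    ← Finset.mul_sum] at h
  simp only [Finset.sum_ite_mem, Finset.univ_inter, Finset.sum_const, smul_eq_mul, mul_one,
    Finset.card_univ, Fintype.card_fin] at h
  have h2 : (N + 1) * (wrapSet N k).card = (N + 1) * k := by omega
  exact Nat.eq_of_mul_eq_mul_left (Nat.succ_pos N) h2

/-- weight of a variable -/
def wt (N : ℕ) (q : Fin 2 × Fin (N + 1) × Fin (N + 1)) : ℕ :=
  4 * (N + 1) ^ 2 - (((q.2.1.val : ℤ) + (N + 1) * q.1.val - q.2.2.val) ^ 2).toNat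

/-- offset of a variable -/
def off (N : ℕ) (q : Fin 2 × Fin (N + 1) × Fin (N + 1)) : ℤ :=
  (q.2.1.val : ℤ) + (N + 1) * q.1.val - q.2.2.val

theorem wt_cast (N : ℕ) (q : Fin 2 × Fin (N + 1) × Fin (N + 1)) :
    (wt N q : ℤ) = 4 * (N + 1) ^ 2 - (off N q) ^ 2 := by
  have h1 : (off N q) ^ 2 ≤ 4 * ((N : ℤ) + 1) ^ 2 := by
    have ha := q.1.isLt
    have hr := q.2.1.isLt
    have hc := q.2.2.isLt
    have hle : |off N q| ≤ 2 * ((N : ℤ) + 1) := by
      unfold off
      rw [abs_le]
      have ha' : (q.1.val : ℤ) ≤ 1 := by omega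
      have ha0 : (0 : ℤ) ≤ q.1.val := by omega
      constructor
      · nlinarith
      · nlinarith
    have h2 := sq_le_sq' (by linarith [neg_abs_le (off N q), hle]) (le_trans (le_abs_self _) hle)
    nlinarith [h2]
  have h2 : 0 ≤ (off N q) ^ 2 := sq_nonneg _
  have h3 : (((off N q) ^ 2).toNat : ℤ) = (off N q) ^ 2 := Int.toNat_of_nonneg h2
  have h4 : ((off N q) ^ 2).toNat ≤ 4 * (N + 1) ^ 2 := by
    zify
    rw [h3]; exact h1
  have h5 : wt N q = 4 * (N + 1) ^ 2 - ((off N q) ^ 2).toNat := rfl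
  rw [h5, Nat.cast_sub h4, h3]
  push_cast
  ring

theorem weight_exps (N : ℕ) (τ : Equiv.Perm (Fin (N + 1))) (S : Finset (Fin (N + 1))) :
    ((Finsupp.weight (wt N) (exps τ S) : ℕ) : ℤ) =
      ∑ i, (4 * ((N : ℤ) + 1) ^ 2 - (off N ((if i ∈ S then 1 else 0), τ i, i)) ^ 2) := by
  unfold exps
  rw [map_sum, Nat.cast_sum]
  refine Finset.sum_congr rfl fun i _ => ?_
  rw [Finsupp.weight_single]
  simp only [smul_eq_mul, one_mul]
  rw [wt_cast]

theorem sum_off (N k : ℕ) (τ : Equiv.Perm (Fin (N + 1))) (S : Finset (Fin (N + 1))) (hS : S.card = k) :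
    ∑ i, off N ((if i ∈ S then 1 else 0), τ i, i) = (N + 1) * k := by
  unfold off
  simp only [Finset.sum_sub_distrib, Finset.sum_add_distrib]
  have h1 : ∑ i, ((τ i).val : ℤ) = ∑ i : Fin (N + 1), (i.val : ℤ) :=
    Equiv.sum_comp τ (fun i => (i.val : ℤ))
  have h2 : ∑ i : Fin (N + 1), ((N : ℤ) + 1) * ((if i ∈ S then 1 else 0 : Fin 2).val : ℤ) = (N + 1) * k := by
    rw [← Finset.mul_sum]
    congr 1
    have : ∀ i : Fin (N + 1), ((if i ∈ S then 1 else 0 : Fin 2).val : ℤ) = if i ∈ S then 1 else 0 := by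
      intro i; split_ifs <;> simp
    simp only [this, Finset.sum_ite_mem, Finset.univ_inter, Finset.sum_const, hS]
    simp
  rw [h1, h2]; ring

theorem weight_exps' (N k : ℕ) (τ : Equiv.Perm (Fin (N + 1))) (S : Finset (Fin (N + 1)))
    (hS : S.card = k) :
    ((Finsupp.weight (wt N) (exps τ S) : ℕ) : ℤ) =
      (N + 1) * (4 * ((N : ℤ) + 1) ^ 2) - (N + 1) * k ^ 2 -
        ∑ i, (off N ((if i ∈ S then 1 else 0), τ i, i) - k) ^ 2 := by
  rw [weight_exps]
  have h1 : ∑ i : Fin (N + 1), (off N ((if i ∈ S then 1 else 0), τ i, i) - k) ^ 2 =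
      ∑ i : Fin (N + 1), (off N ((if i ∈ S then 1 else 0), τ i, i)) ^ 2 -
        2 * k * ∑ i : Fin (N + 1), off N ((if i ∈ S then 1 else 0), τ i, i) + (N + 1) * k ^ 2 := by
    rw [Finset.mul_sum, ← Finset.sum_sub_distrib]
    have : ((N : ℤ) + 1) * k ^ 2 = ∑ i : Fin (N + 1), (k : ℤ) ^ 2 := by simp
    rw [this, ← Finset.sum_add_distrib]
    refine Finset.sum_congr rfl fun i _ => ?_
    ring
  rw [h1, sum_off N k τ S hS, Finset.sum_sub_distrib]
  simp only [Finset.sum_const, Finset.card_univ, Fintype.card_fin, nsmul_eq_mul]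
  push_cast
  ring

/-- leading exponents -/
noncomputable def leadExp (N k : ℕ) : (Fin 2 × Fin (N + 1) × Fin (N + 1)) →₀ ℕ :=
  exps (shiftPerm N k) (wrapSet N k)

theorem off_lead (N k : ℕ) (hk : k ≤ N + 1) (i : Fin (N + 1)) :
    off N ((if i ∈ wrapSet N k then 1 else 0), shiftPerm N k i, i) = k := by
  have h := shift_wrap N k hk i
  unfold off
  by_cases hi : i ∈ wrapSet N k
  · simp only [hi, if_true] at h ⊢
    have : ((1 : Fin 2).val : ℤ) = 1 := rfl
    rw [this]; omega
  · simp only [hi, if_false] at h ⊢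
    have : ((0 : Fin 2).val : ℤ) = 0 := rfl
    rw [this]; omega

theorem eq_lead_of_off (N k : ℕ) (hk : k ≤ N + 1) (τ : Equiv.Perm (Fin (N + 1)))
    (S : Finset (Fin (N + 1)))
    (h : ∀ i, off N ((if i ∈ S then 1 else 0), τ i, i) = k) : τ = shiftPerm N k ∧ S = wrapSet N k := by
  have key : ∀ i, (τ i).val + (N + 1) * (if i ∈ S then 1 else 0) = i.val + k := by
    intro i
    have h1 := h i
    unfold off at h1
    by_cases hi : i ∈ S
    · simp only [hi, if_true] at h1 ⊢
      have : ((1 : Fin 2).val : ℤ) = 1 := rfl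
      rw [this] at h1; omega
    · simp only [hi, if_false] at h1 ⊢
      have : ((0 : Fin 2).val : ℤ) = 0 := rfl
      rw [this] at h1; omega
  have key2 := shift_wrap N k hk
  have hmem : ∀ i, i ∈ S ↔ i ∈ wrapSet N k := by
    intro i
    have h1 := key i
    have h2 : i ∈ wrapSet N k ↔ N + 1 ≤ i.val + k := by simp [wrapSet]
    rw [h2]
    have h3 := (τ i).isLt
    by_cases hi : i ∈ S
    · rw [if_pos hi] at h1
      exact ⟨fun _ => by omega, fun _ => hi⟩
    · rw [if_neg hi] at h1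
      exact ⟨fun h => absurd h hi, fun h => by omega⟩
  refine ⟨?_, Finset.ext hmem⟩
  ext i
  have h1 := key i
  have h2 := key2 i
  by_cases hi : i ∈ S
  · have hi' := (hmem i).mp hi
    rw [if_pos hi] at h1
    rw [if_pos hi'] at h2
    omega
  · have hi' : i ∉ wrapSet N k := fun h => hi ((hmem i).mpr h)
    rw [if_neg hi] at h1
    rw [if_neg hi'] at h2
    omega

theorem weight_lt_lead (N k : ℕ) (hk : k ≤ N + 1) (τ : Equiv.Perm (Fin (N + 1)))
    (S : Finset (Fin (N + 1))) (hS : S.card = k) (hne : exps τ S ≠ leadExp N k) :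
    Finsupp.weight (wt N) (exps τ S) < Finsupp.weight (wt N) (leadExp N k) := by
  have h1 := weight_exps' N k τ S hS
  have h2 := weight_exps' N k (shiftPerm N k) (wrapSet N k) (card_wrapSet N k hk)
  have h3 : ∑ i, (off N ((if i ∈ wrapSet N k then 1 else 0), shiftPerm N k i, i) - k) ^ 2 = 0 := by
    refine Finset.sum_eq_zero fun i _ => ?_
    rw [off_lead N k hk i]; ring
  have h4 : 0 < ∑ i, (off N ((if i ∈ S then 1 else 0), τ i, i) - k) ^ 2 := by
    apply lt_of_le_of_ne (Finset.sum_nonneg fun i _ => sq_nonneg _)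
    intro h0
    apply hne
    have h5 := (Finset.sum_eq_zero_iff_of_nonneg (fun i _ => sq_nonneg _)).mp h0.symm
    have h6 : ∀ i, off N ((if i ∈ S then 1 else 0), τ i, i) = k := by
      intro i
      have := h5 i (Finset.mem_univ _)
      have := pow_eq_zero_iff (two_ne_zero) |>.mp this
      linarith
    obtain ⟨h7, h8⟩ := eq_lead_of_off N k hk τ S h6
    rw [h7, h8]; rfl
  have h9 : ((Finsupp.weight (wt N) (exps τ S) : ℕ) : ℤ) < ((Finsupp.weight (wt N) (leadExp N k) : ℕ) : ℤ) := by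
    unfold leadExp
    rw [h1, h2, h3]; linarith
  exact_mod_cast h9

theorem support_gPoly (N k : ℕ) (μ : (Fin 2 × Fin (N + 1) × Fin (N + 1)) →₀ ℕ)
    (hμ : μ ∈ (gPoly (N + 1) k).support) :
    ∃ (τ : Equiv.Perm (Fin (N + 1))) (S : Finset (Fin (N + 1))), S.card = k ∧ μ = exps τ S := by
  classical
  rw [MvPolynomial.mem_support_iff, gPoly, MvPolynomial.coeff_sum] at hμ
  obtain ⟨τ, _, hτ⟩ := Finset.exists_ne_zero_of_sum_ne_zero hμ
  rw [MvPolynomial.coeff_sum] at hτ
  obtain ⟨S, hS, hS'⟩ := Finset.exists_ne_zero_of_sum_ne_zero hτ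
  rw [Finset.mem_powersetCard] at hS
  refine ⟨τ, S, hS.2, ?_⟩
  by_contra hne
  apply hS'
  rw [MvPolynomial.coeff_smul, MvPolynomial.coeff_monomial, if_neg (Ne.symm hne), smul_zero]

theorem leadExp_mem_support (N k : ℕ) (hk : k ≤ N + 1) : leadExp N k ∈ (gPoly (N + 1) k).support := by
  classical
  rw [MvPolynomial.mem_support_iff, gPoly, MvPolynomial.coeff_sum,
    Finset.sum_eq_single (shiftPerm N k)]
  · rw [MvPolynomial.coeff_sum, Finset.sum_eq_single (wrapSet N k)]
    · rw [MvPolynomial.coeff_smul, MvPolynomial.coeff_monomial,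
        if_pos (show exps (shiftPerm N k) (wrapSet N k) = leadExp N k from rfl)]
      rcases Int.units_eq_one_or (Equiv.Perm.sign (shiftPerm N k)) with hs | hs <;> rw [hs] <;> simp
    · intro S _ hS
      rw [MvPolynomial.coeff_smul, MvPolynomial.coeff_monomial, if_neg, smul_zero]
      intro h
      exact hS (exps_injective _ _ _ _ h).2
    · intro h
      exact absurd (Finset.mem_powersetCard.mpr ⟨Finset.subset_univ _, card_wrapSet N k hk⟩) h
  · intro τ _ hτ
    rw [MvPolynomial.coeff_sum]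
    refine Finset.sum_eq_zero fun S _ => ?_
    rw [MvPolynomial.coeff_smul, MvPolynomial.coeff_monomial, if_neg, smul_zero]
    intro h
    exact hτ (exps_injective _ _ _ _ h).1
  · intro h; exact absurd (Finset.mem_univ _) h

theorem detIdeal_two_isRadical (N : ℕ) : (detIdeal (N + 1) 2).IsRadical := by
  classical
  obtain ⟨m0⟩ := exists_monomialOrder (Fin 2 × Fin (N + 1) × Fin (N + 1))
  set m := weightOrder m0 (Finsupp.weight (wt N)) with hm
  have hdeg : ∀ k : Fin (N + 1 + 1), m.degree (gPoly (N + 1) k.val) = leadExp N k.val := by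
    intro k
    have hk : k.val ≤ N + 1 := Nat.lt_succ_iff.mp k.isLt
    apply degree_weightOrder
    · exact leadExp_mem_support N k.val hk
    · intro μ hμ hne
      obtain ⟨τ, S, hS, rfl⟩ := support_gPoly N k.val μ hμ
      exact weight_lt_lead N k.val hk τ S hS hne
  have hval : ∀ (k : ℕ) (a : Fin 2) (r c : Fin (N + 1)), leadExp N k (a, r, c) ≠ 0 →
      (if c ∈ wrapSet N k then 1 else 0 : Fin 2) = a ∧ shiftPerm N k c = r := by
    intro k a r c h
    by_contra hcon
    apply h
    rw [leadExp, exps_apply, if_neg hcon]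
  rw [detIdeal_two]
  apply isRadical_of_coprime_squarefree m
  · intro k
    rw [hdeg]
    intro h0
    have h1 := DFunLike.congr_fun h0 ((if (0 : Fin (N + 1)) ∈ wrapSet N k.val then 1 else 0 : Fin 2),
      shiftPerm N k.val 0, 0)
    rw [leadExp, exps_apply, if_pos ⟨rfl, rfl⟩] at h1
    exact one_ne_zero h1
  · intro k s
    rw [hdeg]
    obtain ⟨a, r, c⟩ := s
    rw [leadExp, exps_apply]
    split_ifs <;> simp
  · intro k l hkl
    rw [hdeg, hdeg, Finset.disjoint_left]
    rintro ⟨a, r, c⟩ h1 h2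
    rw [Finsupp.mem_support_iff] at h1 h2
    obtain ⟨h3, h4⟩ := hval _ _ _ _ h1
    obtain ⟨h5, h6⟩ := hval _ _ _ _ h2
    apply hkl
    have h7 := off_lead N k.val (Nat.lt_succ_iff.mp k.isLt) c
    have h8 := off_lead N l.val (Nat.lt_succ_iff.mp l.isLt) c
    rw [h3, h4] at h7
    rw [h5, h6, h7] at h8
    exact Fin.ext (by exact_mod_cast h8)

end Pool.Agent.Lib_MP_dea706_ag
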